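import Pool.Agent.W221.Sz.Semi

/-!
# The number of semistable curves with full 2-torsion, bounded conductor and a large discriminant
-/

set_option autoImplicit false

namespace Pool.Agent.R417.LD

open Finset Pool.Agent.H328R2.ABC Pool.Agent.H925R.Szpiro
open Pool.Agent.W221.ABC7 (Fx Fx_eq ExcB excB_finite count_FxB ml_Fx)

/-- conductor `≤ X`, `N ^ κ ≤ |Δ|` and height `≤ X ^ A` -/
def Up (κ A X : ℝ) : Set (ℤ × ℤ) :=
  {q | ∃ W : WeierstrassCurve ℤ, W.Δ ≠ 0 ∧ IsCoprime W.c₄ W.Δ ∧ Full W ∧ q = (W.c₄, W.c₆) ∧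
    (cond W : ℝ) ≤ X ∧ (cond W : ℝ) ^ κ ≤ |(W.Δ : ℝ)| ∧ |(W.c₄ : ℝ)| ^ 3 ≤ X ^ A ∧
    (W.c₆ : ℝ) ^ 2 ≤ X ^ A}

theorem Fx_le (l : ℝ) : Fx l ≤ max (l - 1) (4 * l / 7) := by
  rw [Fx_eq]
  refine max_le (le_max_left _ _) ?_
  rcases le_or_gt 2 l with h | h
  · exact (min_le_left _ _).trans (le_trans (by linarith) (le_max_left _ _))
  · refine (min_le_right _ _).trans (le_trans ?_ (le_max_right _ _))
    refine max_le (min_le_left _ _) (max_le (by linarith) (by linarith))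

/-- `x F(1/x) ≤ max (1 - x) (4/7)` -/
theorem x_Fx {x : ℝ} (hx : 0 < x) : x * Fx (1 / x) ≤ max (1 - x) (4 / 7) := by
  have h1 := Fx_le (1 / x)
  calc x * Fx (1 / x) ≤ x * max (1 / x - 1) (4 * (1 / x) / 7) := by gcongr
    _ = max (x * (1 / x - 1)) (x * (4 * (1 / x) / 7)) := by
        rw [mul_max_of_nonneg _ _ hx.le]
    _ = _ := by
        congr 1 <;> field_simp

/-- the pairs -/
theorem up_pairs {κ A X : ℝ} (hκ : 0 < κ) (hX : 1 ≤ X) (T : Finset (ℕ × ℕ))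
    (hT : ∀ u v : ℕ, 0 < u → 0 < v → Nat.Coprime u v → ((u + v : ℕ) : ℝ) ≤ 2 * X ^ (A / 6) →
      (rad (u * v * (u + v)) : ℝ) ≤ 2 * X →
      (rad (u * v * (u + v)) : ℝ) ≤ 2 * ((u + v : ℕ) : ℝ) ^ (6 / κ) → (u, v) ∈ T) :
    (Up κ A X).Finite ∧ ((Up κ A X).ncard : ℝ) ≤ 4 * T.card := by
  classical
  set B : Finset (ℕ × ℤ) := ({1, 2} : Finset ℕ) ×ˢ ({1, -1} : Finset ℤ) with hB
  have hBcard : B.card ≤ 4 := by
    rw [hB, card_product]
    have h1 : ({1, 2} : Finset ℕ).card ≤ 2 := card_le_two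
    have h2 : ({1, -1} : Finset ℤ).card ≤ 2 := card_le_two
    nlinarith
  have hX0 : 0 < X := by linarith
  have hsub : Up κ A X ⊆ (((B ×ˢ T).image inv : Finset (ℤ × ℤ)) : Set (ℤ × ℤ)) := by
    rintro q ⟨W, hΔ, hc, hf, rfl, hN, hbig, h4, h6⟩
    obtain ⟨g, u, v, hg, hu, hv, hcop, E4, ED⟩ := semi_pair W hΔ hc hf
    rw [mem_coe, mem_image]
    obtain ⟨s, hs, hs6⟩ : ∃ s : ℤ, s ∈ ({1, -1} : Finset ℤ) ∧ W.c₆ = s * |W.c₆| := by
      rcases le_total 0 W.c₆ with h0 | h0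
      · exact ⟨1, by simp, by rw [abs_of_nonneg h0]; ring⟩
      · exact ⟨-1, by simp, by rw [abs_of_nonpos h0]; ring⟩
    obtain ⟨c, hcd⟩ : ∃ c : ℝ, c = ((u + v : ℕ) : ℝ) := ⟨_, rfl⟩
    have hc1 : 1 ≤ c := by
      rw [hcd]
      exact_mod_cast (by omega : 1 ≤ u + v)
    obtain ⟨n, hn⟩ : ∃ n : ℕ, n = u * v * (u + v) := ⟨_, rfl⟩
    have hD' : 256 * W.Δ = (g : ℤ) ^ 6 * (n : ℤ) ^ 2 := by
      rw [ED, hn]; push_cast; ring
    have hr : (rad n : ℝ) ≤ 2 * (cond W : ℝ) := by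
      exact_mod_cast rad_le_two_cond W hΔ g n hD'
    refine ⟨((g, s), (u, v)), ?_, ?_⟩
    · rw [mem_product]
      constructor
      · rw [hB, mem_product]
        refine ⟨?_, hs⟩
        rcases hg with rfl | rfl <;> simp
      · refine hT u v hu hv hcop ?_ ?_ ?_
        · -- size
          rw [← hcd]
          have e4 : (W.c₄ : ℝ) = (g : ℝ) ^ 2 * ((u : ℝ) ^ 2 + u * v + (v : ℝ) ^ 2) := by
            exact_mod_cast E4
          have hg1 : (1 : ℝ) ≤ (g : ℝ) ^ 2 := by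
            rcases hg with rfl | rfl <;> norm_num
          have h7 : c ^ 2 ≤ 2 * W.c₄ := by
            rw [e4, hcd]
            push_cast
            have h8 : (0 : ℝ) ≤ (u : ℝ) ^ 2 + u * v + (v : ℝ) ^ 2 := by positivity
            have h9 : (u : ℝ) ^ 2 + u * v + (v : ℝ) ^ 2 ≤
                (g : ℝ) ^ 2 * ((u : ℝ) ^ 2 + u * v + (v : ℝ) ^ 2) := le_mul_of_one_le_left h8 hg1
            nlinarith [sq_nonneg ((u : ℝ) - v)]
          have h10 : (0 : ℝ) ≤ W.c₄ := by nlinarith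
          rw [abs_of_nonneg h10] at h4
          have h11 : (c ^ 2) ^ 3 ≤ (2 * X ^ (A / 6)) ^ 6 := by
            calc (c ^ 2) ^ 3 ≤ (2 * W.c₄) ^ 3 := pow_le_pow_left₀ (by positivity) h7 3
              _ = 8 * (W.c₄ : ℝ) ^ 3 := by ring
              _ ≤ 8 * X ^ A := by gcongr
              _ ≤ 64 * X ^ A := by
                  have : (0 : ℝ) ≤ X ^ A := by positivity
                  linarith
              _ = _ := by
                  rw [mul_pow, ← Real.rpow_natCast (X ^ (A / 6)) 6, ← Real.rpow_mul hX0.le]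
                  congr 1
                  · norm_num
                  · congr 1
                    push_cast
                    ring
          have h12 : (c ^ 2) ^ 3 = c ^ 6 := by ring
          rw [h12] at h11
          exact le_of_pow_le_pow_left₀ (by norm_num) (by positivity) h11
        · rw [← hn]
          linarith
        · rw [← hn, ← hcd]
          have hnle : (n : ℝ) ≤ c ^ 3 := by
            have : n ≤ (u + v) ^ 3 := by
              rw [hn]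
              calc u * v * (u + v) ≤ (u + v) * (u + v) * (u + v) := by gcongr <;> omega
                _ = _ := by ring
            rw [hcd]
            exact_mod_cast this
          have hΔle : |(W.Δ : ℝ)| ≤ c ^ 6 := by
            have h1 : 256 * (W.Δ : ℝ) = (g : ℝ) ^ 6 * (n : ℝ) ^ 2 := by exact_mod_cast hD'
            have hg6 : (g : ℝ) ^ 6 ≤ 64 := by
              rcases hg with rfl | rfl <;> norm_num
            have hn2 : (n : ℝ) ^ 2 ≤ (c ^ 3) ^ 2 := by gcongr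
            have hpos : 0 ≤ (W.Δ : ℝ) := by
              have : (0 : ℝ) ≤ (g : ℝ) ^ 6 * (n : ℝ) ^ 2 := by positivity
              linarith
            rw [abs_of_nonneg hpos]
            have h2 : (g : ℝ) ^ 6 * (n : ℝ) ^ 2 ≤ 64 * (c ^ 3) ^ 2 := by gcongr
            nlinarith [pow_pos (by linarith : 0 < c) 6]
          have hcond : (cond W : ℝ) ^ κ ≤ c ^ 6 := hbig.trans hΔle
          have hcond0 : (0 : ℝ) ≤ (cond W : ℝ) := Nat.cast_nonneg _
          have hcond2 : (cond W : ℝ) ≤ c ^ (6 / κ) := by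
            have h1 : ((cond W : ℝ) ^ κ) ^ (1 / κ) ≤ (c ^ 6) ^ (1 / κ) :=
              Real.rpow_le_rpow (by positivity) hcond (by positivity)
            rw [← Real.rpow_mul hcond0, mul_one_div_cancel hκ.ne', Real.rpow_one] at h1
            have h2 : (c ^ 6) ^ (1 / κ) = c ^ (6 / κ) := by
              rw [← Real.rpow_natCast, ← Real.rpow_mul (by linarith)]
              congr 1
              push_cast
              ring
            rw [h2] at h1
            exact h1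
          linarith
    · unfold inv
      simp only
      refine Prod.ext E4.symm ?_
      simp only
      rw [← E4]
      have hΔ' : ((g : ℤ) ^ 6 * ((u : ℤ) * v * (u + v)) ^ 2) / 256 = W.Δ := by
        rw [← ED]
        exact Int.mul_ediv_cancel_left _ (by norm_num)
      rw [hΔ']
      have hrel := W.c_relation
      have h7 : W.c₄ ^ 3 - 1728 * W.Δ = |W.c₆| ^ 2 := by rw [sq_abs]; linarith
      have h8 : (|W.c₆| ^ 2).toNat = (W.c₆.natAbs) ^ 2 := by
        rw [Int.abs_eq_natAbs, ← Nat.cast_pow, Int.toNat_natCast]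
      rw [h7, h8, Nat.sqrt_eq', ← Int.abs_eq_natAbs]
      exact hs6.symm
  have hfin : (Up κ A X).Finite := Set.Finite.subset (Finset.finite_toSet _) hsub
  refine ⟨hfin, ?_⟩
  have h1 : (Up κ A X).ncard ≤ ((B ×ˢ T).image inv).card := by
    rw [← Set.ncard_coe_finset]
    exact Set.ncard_le_ncard hsub (Finset.finite_toSet _)
  have h2 : ((B ×ˢ T).image inv).card ≤ 4 * T.card :=
    card_image_le.trans (by rw [card_product]; exact Nat.mul_le_mul_right _ hBcard)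
  exact_mod_cast h1.trans h2

/-- the count of one class -/
theorem class_le (l ε : ℝ) (hl : 0 < l) (hε : 0 < ε) : ∃ C : ℝ, 0 < C ∧ ∀ H : ℕ, 1 ≤ H →
    ∀ T : Finset (ℕ × ℕ), (∀ t ∈ T, 0 < t.1 ∧ 0 < t.2 ∧ Nat.Coprime t.1 t.2 ∧ t.1 + t.2 ≤ H ∧
      (rad (t.1 * t.2 * (t.1 + t.2)) : ℝ) ≤ 2 * ((t.1 + t.2 : ℕ) : ℝ) ^ l) →
    (T.card : ℝ) ≤ C * (H : ℝ) ^ (Fx l + ε) := by
  obtain ⟨C, h⟩ := count_FxB 2 l ε hl hε
  refine ⟨|C| + 1, by positivity, fun H hH T hT => ?_⟩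
  have hinj : Set.InjOn (fun t : ℕ × ℕ => (t.1, t.2, t.1 + t.2)) (T : Set (ℕ × ℕ)) := by
    rintro ⟨a, b⟩ - ⟨a', b'⟩ - he
    simp only [Prod.mk.injEq] at he
    exact Prod.ext he.1 he.2.1
  have h2 : (T : Set (ℕ × ℕ)).ncard ≤ (ExcB 2 l H).ncard := by
    refine Set.ncard_le_ncard_of_injOn (fun t : ℕ × ℕ => (t.1, t.2, t.1 + t.2)) ?_ hinj
      (excB_finite _ _ _)
    rintro ⟨a, b⟩ ht
    obtain ⟨q1, q2, q3, q4, q5⟩ := hT (a, b) ht
    exact ⟨q1, q2, q3, rfl, q4, q5⟩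
  rw [Set.ncard_coe_finset] at h2
  have h0 : (0 : ℝ) ≤ (H : ℝ) ^ (Fx l + ε) := Real.rpow_nonneg (Nat.cast_nonneg _) _
  calc (T.card : ℝ) ≤ ((ExcB 2 l H).ncard : ℝ) := by exact_mod_cast h2
    _ ≤ C * (H : ℝ) ^ (Fx l + ε) := h H hH
    _ ≤ (|C| + 1) * (H : ℝ) ^ (Fx l + ε) := by
        apply mul_le_mul_of_nonneg_right _ h0
        have := le_abs_self C
        linarith

/-- the finite set of the pairs with `u + v ≤ H` and `rad ≤ 2 (u + v) ^ l` -/
noncomputable def TT (l : ℝ) (H : ℕ) : Finset (ℕ × ℕ) := by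
  classical
  exact ((range (H + 1)) ×ˢ range (H + 1)).filter (fun t => 0 < t.1 ∧ 0 < t.2 ∧
    Nat.Coprime t.1 t.2 ∧ t.1 + t.2 ≤ H ∧
      (rad (t.1 * t.2 * (t.1 + t.2)) : ℝ) ≤ 2 * ((t.1 + t.2 : ℕ) : ℝ) ^ l)

theorem mem_TT {l : ℝ} {H u v : ℕ} (hu : 0 < u) (hv : 0 < v) (hc : Nat.Coprime u v)
    (hH : u + v ≤ H) (hr : (rad (u * v * (u + v)) : ℝ) ≤ 2 * ((u + v : ℕ) : ℝ) ^ l) :
    (u, v) ∈ TT l H := by
  classical
  unfold TT
  rw [mem_filter, mem_product, mem_range, mem_range]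
  exact ⟨⟨by omega, by omega⟩, hu, hv, hc, hH, hr⟩

theorem TT_card (l ε : ℝ) (hl : 0 < l) (hε : 0 < ε) : ∃ C : ℝ, 0 < C ∧ ∀ (H : ℕ) (Y : ℝ), 1 ≤ Y →
    (H : ℝ) ≤ 2 * Y → ((TT l H).card : ℝ) ≤ C * Y ^ (Fx l + ε) := by
  classical
  obtain ⟨C, hC, h⟩ := class_le l ε hl hε
  have hpos : 0 < Fx l + ε := by
    have := Pool.Agent.W221.ABC7.Fx_pos l hl
    linarith
  refine ⟨C * 2 ^ (Fx l + ε), by positivity, fun H Y hY hH => ?_⟩
  rcases Nat.eq_zero_or_pos H with h0 | h0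
  · have : TT l H = ∅ := by
      rw [Finset.eq_empty_iff_forall_notMem]
      intro t ht
      unfold TT at ht
      rw [mem_filter] at ht
      obtain ⟨_, h1, h2, _, h3, _⟩ := ht
      omega
    rw [this, card_empty, Nat.cast_zero]
    positivity
  · have h1 := h H h0 (TT l H) (by
      intro t ht
      unfold TT at ht
      rw [mem_filter] at ht
      exact ht.2)
    refine h1.trans ?_
    rw [mul_assoc, ← Real.mul_rpow (by norm_num) (by linarith)]
    gcongr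

/-- **The upper bound.** -/
theorem upper (κ A ε : ℝ) (hκ : 2 ≤ κ) (hA : 0 < A) (hε : 0 < ε) :
    ∃ C : ℝ, 0 < C ∧ ∀ X : ℝ, 1 ≤ X → (Up κ A X).Finite ∧
      ((Up κ A X).ncard : ℝ) ≤ C * X ^ (max (1 - κ / 6) (4 / 7) + ε) := by
  classical
  obtain ⟨N, hN⟩ : ∃ N : ℕ, max 12 (16 / ε) ≤ (N : ℝ) := exists_nat_ge _
  have hN12 : (12 : ℝ) ≤ N := (le_max_left _ _).trans hN
  have hNε : 16 / ε ≤ N := (le_max_right _ _).trans hN
  have hN0 : (0 : ℝ) < N := by linarith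
  have hN1 : 1 / (N : ℝ) ≤ 1 / 12 := one_div_le_one_div_of_le (by norm_num) hN12
  have h16 : 16 * (1 / (N : ℝ)) ≤ ε := by
    rw [mul_one_div, div_le_iff₀ hN0]
    rw [div_le_iff₀ hε] at hNε
    linarith
  obtain ⟨θ, hθ⟩ : ∃ θ : ℝ, θ = max (1 - κ / 6) (4 / 7) := ⟨_, rfl⟩
  have hθ1 : 1 - κ / 6 ≤ θ := by rw [hθ]; exact le_max_left _ _
  have hθ2 : 4 / 7 ≤ θ := by rw [hθ]; exact le_max_right _ _
  rw [← hθ]
  obtain ⟨i0, hi0⟩ : ∃ i0 : ℕ, i0 = ⌊(N : ℝ) * κ / 6⌋₊ := ⟨_, rfl⟩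
  have hi1 : (i0 : ℝ) ≤ N * κ / 6 := by rw [hi0]; exact Nat.floor_le (by positivity)
  have hi2 : (N : ℝ) * κ / 6 < i0 + 1 := by rw [hi0]; exact Nat.lt_floor_add_one _
  obtain ⟨Im, hIm⟩ : ∃ Im : ℕ, Im = i0 + ⌈(N : ℝ) * A⌉₊ := ⟨_, rfl⟩
  obtain ⟨ε1, hε1⟩ : ∃ ε1 : ℝ, ε1 = ε / (2 * (Im + 2)) := ⟨_, rfl⟩
  have hε10 : 0 < ε1 := by rw [hε1]; positivity
  have hε11 : ((Im : ℝ) + 2) * ε1 = ε / 2 := by rw [hε1]; field_simp
  have hcls : ∀ i : ℕ, ∃ C : ℝ, 0 < C ∧ ∀ (H : ℕ) (Y : ℝ), 1 ≤ Y → i0 ≤ i → 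
      (H : ℝ) ≤ 2 * Y → ((TT (1 / ((i : ℝ) / N)) H).card : ℝ) ≤ C * Y ^ (Fx (1 / ((i : ℝ) / N)) + ε1) := by
    intro i
    rcases Nat.eq_zero_or_pos i with h0 | h0
    · refine ⟨1, one_pos, fun H Y hY hi => ?_⟩
      exfalso
      have h1 : (i0 : ℝ) = 0 := by
        have : i0 = 0 := by omega
        rw [this]; simp
      have h2 : (4 : ℝ) ≤ N * κ / 6 := by nlinarith
      linarith
    · have hi : (0 : ℝ) < i := by exact_mod_cast h0
      obtain ⟨C, hC, h⟩ := TT_card (1 / ((i : ℝ) / N)) ε1 (by positivity) hε10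
      exact ⟨C, hC, fun H Y hY _ hH => h H Y hY hH⟩
  choose Ci hCi hcls using hcls
  obtain ⟨C0, hC0, h0⟩ := TT_card (6 / κ) ε1 (by positivity) hε10
  refine ⟨4 * (C0 + ∑ i ∈ Icc i0 Im, Ci i), ?_, fun X hX => ?_⟩
  · have : 0 ≤ ∑ i ∈ Icc i0 Im, Ci i := sum_nonneg (fun i _ => (hCi i).le)
    positivity
  have hX0 : 0 < X := by linarith
  obtain ⟨H, hH⟩ : ∃ H : ℕ → ℕ, H = fun i : ℕ => ⌊2 * X ^ (((i : ℝ) + 1) / N)⌋₊ := ⟨_, rfl⟩
  obtain ⟨T, hT⟩ : ∃ T : Finset (ℕ × ℕ), T = TT (6 / κ) ⌊X ^ (κ / 6)⌋₊ ∪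
      (Icc i0 Im).biUnion (fun i => TT (1 / ((i : ℝ) / N)) (H i)) := ⟨_, rfl⟩
  obtain ⟨hfin, hcard⟩ := up_pairs (κ := κ) (A := A) (by linarith) hX T (by
    intro u v hu hv hc hsz hr1 hr2
    rw [hT, mem_union]
    obtain ⟨c, hcd⟩ : ∃ c : ℝ, c = ((u + v : ℕ) : ℝ) := ⟨_, rfl⟩
    have hc1 : 1 ≤ c := by
      rw [hcd]
      exact_mod_cast (by omega : 1 ≤ u + v)
    rcases le_or_gt c (X ^ (κ / 6)) with hle | hgt
    · left
      refine mem_TT hu hv hc ?_ hr2
      apply Nat.le_floor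
      rw [← hcd]
      exact hle
    · right
      rw [mem_biUnion]
      obtain ⟨i, hi⟩ : ∃ i : ℕ, i = Nat.findGreatest (fun i => X ^ ((i : ℝ) / N) < c) Im := ⟨_, rfl⟩
      have hP0 : X ^ ((i0 : ℝ) / N) < c := by
        refine lt_of_le_of_lt ?_ hgt
        apply Real.rpow_le_rpow_of_exponent_le hX
        rw [div_le_iff₀ hN0]
        linarith
      have hi0' : i0 ≤ i := by
        rw [hi]
        exact Nat.le_findGreatest (by omega) hP0
      have hPi : X ^ ((i : ℝ) / N) < c := by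
        rw [hi]
        exact Nat.findGreatest_spec (P := fun i : ℕ => X ^ ((i : ℝ) / N) < c)
          (by omega : i0 ≤ Im) hP0
      have hiIm : i ≤ Im := by rw [hi]; exact Nat.findGreatest_le _
      have hi4 : (0 : ℝ) < i := by
        have h2 : (4 : ℝ) ≤ N * κ / 6 := by nlinarith
        have h3 : (i0 : ℝ) ≤ i := by exact_mod_cast hi0'
        linarith
      have hcH : c ≤ 2 * X ^ (((i : ℝ) + 1) / N) := by
        rcases Nat.lt_or_ge i Im with h | h
        · have h2 : ¬ X ^ (((i + 1 : ℕ) : ℝ) / N) < c := by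
            refine Nat.findGreatest_is_greatest (P := fun i : ℕ => X ^ ((i : ℝ) / N) < c)
              (n := Im) ?_ (by omega)
            rw [← hi]
            omega
          push Not at h2
          push_cast at h2
          have h3 : 0 ≤ X ^ (((i : ℝ) + 1) / N) := by positivity
          linarith
        · have h2 : i = Im := le_antisymm hiIm h
          rw [hcd]
          refine hsz.trans ?_
          have h3 : X ^ (A / 6) ≤ X ^ (((i : ℝ) + 1) / N) := by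
            apply Real.rpow_le_rpow_of_exponent_le hX
            rw [le_div_iff₀ hN0, h2, hIm]
            push_cast
            have h4 : (N : ℝ) * A ≤ ⌈(N : ℝ) * A⌉₊ := Nat.le_ceil _
            have h5 : (0 : ℝ) ≤ i0 := Nat.cast_nonneg _
            have h6 : 0 < (N : ℝ) * A := by positivity
            linarith
          linarith
      refine ⟨i, mem_Icc.mpr ⟨hi0', hiIm⟩, mem_TT hu hv hc ?_ ?_⟩
      · rw [hH]
        apply Nat.le_floor
        rw [← hcd]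
        exact hcH
      · rw [← hcd]
        refine hr1.trans ?_
        have h2 : X = (X ^ ((i : ℝ) / N)) ^ (1 / ((i : ℝ) / N)) := by
          rw [← Real.rpow_mul hX0.le, mul_one_div_cancel (by positivity), Real.rpow_one]
        have h3 : X ≤ c ^ (1 / ((i : ℝ) / N)) := by
          calc X = (X ^ ((i : ℝ) / N)) ^ (1 / ((i : ℝ) / N)) := h2
            _ ≤ _ := Real.rpow_le_rpow (by positivity) hPi.le (by positivity)
        linarith)
  refine ⟨hfin, hcard.trans ?_⟩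
  have hXθ : (0 : ℝ) < X ^ (θ + ε) := by positivity
  have c0 : ((TT (6 / κ) ⌊X ^ (κ / 6)⌋₊).card : ℝ) ≤ C0 * X ^ (θ + ε) := by
    have h1 := h0 ⌊X ^ (κ / 6)⌋₊ (X ^ (κ / 6)) (Real.one_le_rpow hX (by positivity)) (by
      have := Nat.floor_le (a := X ^ (κ / 6)) (by positivity)
      have h2 : 0 ≤ X ^ (κ / 6) := by positivity
      linarith)
    refine h1.trans ?_
    rw [← Real.rpow_mul hX0.le]
    have h2 : κ / 6 * (Fx (6 / κ) + ε1) ≤ θ + ε := by
      have h3 := x_Fx (x := κ / 6) (by positivity)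
      have h4 : 1 / (κ / 6) = 6 / κ := by
        have : κ ≠ 0 := by linarith
        field_simp
      rw [h4, ← hθ] at h3
      have h5 : κ / 6 ≤ (Im : ℝ) + 2 := by
        have h6 : κ / 6 * 1 ≤ κ / 6 * N := by gcongr; linarith
        have h7 : (i0 : ℝ) ≤ Im := by exact_mod_cast (by omega : i0 ≤ Im)
        linarith
      have h6 : κ / 6 * ε1 ≤ ε / 2 := by
        rw [← hε11]
        gcongr
      linarith
    have h3 := Real.rpow_le_rpow_of_exponent_le hX h2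
    gcongr
  have ci : ∀ i ∈ Icc i0 Im, ((TT (1 / ((i : ℝ) / N)) (H i)).card : ℝ) ≤ Ci i * X ^ (θ + ε) := by
    intro i hi
    rw [mem_Icc] at hi
    have hi4 : (3 : ℝ) < i := by
      have h2 : (4 : ℝ) ≤ N * κ / 6 := by nlinarith
      have h3 : (i0 : ℝ) ≤ i := by exact_mod_cast hi.1
      linarith
    have h1 := hcls i (H i) (X ^ (((i : ℝ) + 1) / N)) (Real.one_le_rpow hX (by positivity)) hi.1 (by
      rw [hH]
      exact Nat.floor_le (by positivity))
    refine h1.trans ?_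
    rw [← Real.rpow_mul hX0.le]
    obtain ⟨x, hx⟩ : ∃ x : ℝ, x = (i : ℝ) / N := ⟨_, rfl⟩
    have hx0 : 0 < x := by rw [hx]; positivity
    have hxl : κ / 6 - 1 / N ≤ x := by
      rw [hx, le_div_iff₀ hN0]
      have h2 : (κ / 6 - 1 / (N : ℝ)) * N = N * κ / 6 - 1 := by field_simp
      have h3 : (i0 : ℝ) ≤ i := by exact_mod_cast hi.1
      rw [h2]
      linarith
    have hx4 : 1 / 4 ≤ x := by linarith
    have h2 : ((i : ℝ) + 1) / N = x + 1 / N := by rw [hx]; ring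
    rw [h2, ← hx]
    have h3 : (x + 1 / N) * (Fx (1 / x) + ε1) ≤ θ + ε := by
      have e1 := x_Fx hx0
      have e2 : max (1 - x) (4 / 7) ≤ θ + 1 / N := by
        have : (0 : ℝ) ≤ 1 / N := by positivity
        exact max_le (by linarith) (by linarith)
      have e3 : Fx (1 / x) ≤ 4 := by
        have e4 : 1 / x ≤ 4 := by
          rw [div_le_iff₀ hx0]; linarith
        refine (Fx_le (1 / x)).trans (max_le (by linarith) (by linarith))
      have e5 : (x + 1 / N) * ε1 ≤ ε / 2 := by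
        rw [← hε11]
        have e6 : x + 1 / (N : ℝ) ≤ Im + 2 := by
          rw [← h2, div_le_iff₀ hN0]
          have e7 : (i : ℝ) ≤ Im := by exact_mod_cast hi.2
          have e8 : (0 : ℝ) ≤ Im := Nat.cast_nonneg _
          nlinarith
        gcongr
      have e6 : 1 / (N : ℝ) * Fx (1 / x) ≤ 1 / N * 4 := by gcongr
      have e7 : (0 : ℝ) ≤ 1 / N := by positivity
      calc (x + 1 / N) * (Fx (1 / x) + ε1) = x * Fx (1 / x) + 1 / N * Fx (1 / x) +
            (x + 1 / N) * ε1 := by ring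
        _ ≤ (θ + 1 / N) + 1 / N * 4 + ε / 2 := by linarith
        _ ≤ _ := by linarith
    have h4 := Real.rpow_le_rpow_of_exponent_le hX h3
    have h5 := (hCi i).le
    gcongr
  have hTc : (T.card : ℝ) ≤ (C0 + ∑ i ∈ Icc i0 Im, Ci i) * X ^ (θ + ε) := by
    have h1 : (T.card : ℝ) ≤ ((TT (6 / κ) ⌊X ^ (κ / 6)⌋₊).card : ℝ) +
        ∑ i ∈ Icc i0 Im, ((TT (1 / ((i : ℝ) / N)) (H i)).card : ℝ) := by
      rw [hT]
      exact_mod_cast (card_union_le _ _).trans (Nat.add_le_add_left card_biUnion_le _)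
    refine h1.trans ?_
    rw [add_mul, sum_mul]
    exact add_le_add c0 (sum_le_sum ci)
  linarith

end Pool.Agent.R417.LD
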