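import Pool.Agent.R417.LD.Gen
import Pool.Agent.R417.LD.Upper

/-!
# Semistable curves with a large discriminant: the two bounds
-/

set_option autoImplicit false

namespace Pool.Agent.R417.LD

open Finset Filter Topology

theorem ev_log (a b δ : ℝ) (hδ : 0 < δ) :
    ∀ᶠ X : ℝ in atTop, a + b * Real.log X ≤ X ^ δ := by
  have h1 : (fun X : ℝ => a) =o[atTop] fun X : ℝ => X ^ δ :=
    Asymptotics.isLittleO_const_left.2 (Or.inr (by
      have := tendsto_rpow_atTop hδ
      exact tendsto_norm_atTop_atTop.comp this))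
  have h2 : (fun X : ℝ => b * Real.log X) =o[atTop] fun X : ℝ => X ^ δ :=
    (isLittleO_log_rpow_atTop hδ).const_mul_left b
  have h3 := (h1.add h2).bound (c := 1) one_pos
  filter_upwards [h3, eventually_ge_atTop 0] with X hX hX0
  have h4 : a + b * Real.log X ≤ ‖a + b * Real.log X‖ := Real.le_norm_self _
  rw [one_mul, Real.norm_of_nonneg (Real.rpow_nonneg hX0 _)] at hX
  exact h4.trans hX

theorem low_full (κ : ℝ) (h2 : 2 ≤ κ) (h6 : κ < 6) : ∃ X₀ : ℝ, 0 < X₀ ∧ ∀ X : ℝ, X₀ ≤ X →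
    1 / 3000000 * X ^ (1 - κ / 6) ≤ ((Lg Full κ 20000000000 X).ncard : ℝ) := by
  have hδ : 0 < 1 / 2 - κ / 12 := by linarith
  have e1 := ev_log 2424 0 _ hδ
  have e2 := ev_log (16 * (1 + Real.log 8) * 1212) (16 * (κ / 6) * 1212) _ hδ
  have key : ∀ᶠ X : ℝ in atTop, 0 < X ∧
      1 / 3000000 * X ^ (1 - κ / 6) ≤ ((Lg Full κ 20000000000 X).ncard : ℝ) := by
    filter_upwards [e1, e2, eventually_ge_atTop 1] with X h1 h3 hX
    have hX0 : 0 < X := by linarith
    refine ⟨hX0, ?_⟩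
    have hXe : X = X ^ (κ / 6) * (X ^ (1 / 2 - κ / 12)) ^ 2 := by
      rw [← Real.rpow_natCast (X ^ (1 / 2 - κ / 12)) 2, ← Real.rpow_mul hX0.le,
        ← Real.rpow_add hX0]
      conv_lhs => rw [← Real.rpow_one X]
      congr 1
      push_cast
      ring
    have hlog : Real.log (8 * X ^ (κ / 6)) = Real.log 8 + κ / 6 * Real.log X := by
      rw [Real.log_mul (by norm_num) (by positivity), Real.log_rpow hX0]
    have hm := low_core (Y := X ^ (κ / 6)) (S := X ^ (1 / 2 - κ / 12)) (X := X) hXe (by linarith)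
      (Real.rpow_le_rpow_of_exponent_le hX (by linarith)) (by
        rw [hlog]
        linarith) κ (by
        rw [← Real.rpow_natCast (X ^ (κ / 6)) 6, ← Real.rpow_mul hX0.le]
        congr 1
        push_cast
        ring)
    refine le_trans (le_of_eq ?_) hm
    rw [Real.rpow_sub hX0, Real.rpow_one]
    field_simp
  obtain ⟨X₀, h⟩ := eventually_atTop.1 key
  exact ⟨max X₀ 1, by positivity, fun X hX => (h X ((le_max_left _ _).trans hX)).2⟩

theorem low_gen (κ : ℝ) (h1 : 1 ≤ κ) (h2 : κ < 2) : ∃ X₀ : ℝ, 0 < X₀ ∧ ∀ X : ℝ, X₀ ≤ X →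
    1 / 3000000 * X ^ (1 - κ / 6) ≤ ((Lg (fun _ => True) κ 20000000000 X).ncard : ℝ) := by
  have hδ : 0 < 1 - κ / 2 := by linarith
  have hδ2 : 0 < κ / 3 := by linarith
  have e1 := ev_log (768 * 60000) 0 _ hδ
  have e2 := ev_log (16 * (1 + Real.log 192) * 60000) (16 * (κ / 3) * 60000) _ hδ
  have e3 := ev_log (16 * (1 + Real.log 192)) (16 * (κ / 3)) _ hδ2
  have key : ∀ᶠ X : ℝ in atTop, 0 < X ∧
      1 / 3000000 * X ^ (1 - κ / 6) ≤ ((Lg (fun _ => True) κ 20000000000 X).ncard : ℝ) := by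
    filter_upwards [e1, e2, e3, eventually_ge_atTop 1] with X h1' h3 h4 hX
    have hX0 : 0 < X := by linarith
    refine ⟨hX0, ?_⟩
    have hV2 : (X ^ (κ / 6)) ^ 2 = X ^ (κ / 3) := by
      rw [← Real.rpow_natCast (X ^ (κ / 6)) 2, ← Real.rpow_mul hX0.le]
      congr 1
      push_cast
      ring
    have hV3 : (X ^ (κ / 6)) ^ 3 = X ^ (κ / 2) := by
      rw [← Real.rpow_natCast (X ^ (κ / 6)) 3, ← Real.rpow_mul hX0.le]
      congr 1
      push_cast
      ring
    have hXe : X = X ^ (1 - κ / 2) * (X ^ (κ / 6)) ^ 3 := by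
      rw [hV3, ← Real.rpow_add hX0]
      conv_lhs => rw [← Real.rpow_one X]
      congr 1
      ring
    have hlog : Real.log (192 * (X ^ (κ / 6)) ^ 2) = Real.log 192 + κ / 3 * Real.log X := by
      rw [hV2, Real.log_mul (by norm_num) (by positivity), Real.log_rpow hX0]
    have hm := low_core2 (V := X ^ (κ / 6)) (S := X ^ (1 - κ / 2)) (X := X) hXe (by linarith)
      (Real.one_le_rpow hX (by positivity)) (by
        rw [hV3]
        exact Real.rpow_le_rpow_of_exponent_le hX (by linarith)) (by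
        rw [hlog]
        linarith) (by
        rw [hlog, hV2]
        linarith) κ (by
        rw [← Real.rpow_natCast (X ^ (κ / 6)) 6, ← Real.rpow_mul hX0.le]
        congr 1
        push_cast
        ring)
    refine le_trans ?_ hm
    rw [hV2, ← Real.rpow_add hX0]
    have e : κ / 3 + (1 - κ / 2) = 1 - κ / 6 := by ring
    rw [e]
    have : 0 ≤ X ^ (1 - κ / 6) := by positivity
    linarith
  obtain ⟨X₀, h⟩ := eventually_atTop.1 key
  exact ⟨max X₀ 1, by positivity, fun X hX => (h X ((le_max_left _ _).trans hX)).2⟩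

/-- an exponent from upper and lower bounds (as in `Pool.Agent.Y911.AB.Main`) -/
theorem tendsto_exponent {f : ℝ → ℝ} {L : ℝ}
    (h1 : ∀ ε : ℝ, 0 < ε → ∃ C : ℝ, 0 < C ∧ ∀ X : ℝ, 1 ≤ X → f X ≤ C * X ^ (L + ε))
    (h2 : ∃ c : ℝ, 0 < c ∧ ∃ X₀ : ℝ, ∀ X : ℝ, X₀ ≤ X → c * X ^ L ≤ f X) :
    Tendsto (fun X : ℝ => Real.log (f X) / Real.log X) atTop (𝓝 L) := by
  rw [Metric.tendsto_atTop]
  intro ε hε
  obtain ⟨C, hC, hup⟩ := h1 (ε / 3) (by positivity)
  obtain ⟨c, hc, X₀, hlo⟩ := h2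
  have ht : Tendsto (fun X : ℝ => ε / 3 * Real.log X) atTop atTop :=
    Real.tendsto_log_atTop.const_mul_atTop (by positivity)
  obtain ⟨X₁, hX₁⟩ := eventually_atTop.1 (ht.eventually (eventually_ge_atTop
    (max (Real.log C) (-Real.log c))))
  refine ⟨max (max X₀ X₁) 2, fun X hX => ?_⟩
  have hX0 : X₀ ≤ X := (le_max_left _ _).trans ((le_max_left _ _).trans hX)
  have hX1 : X₁ ≤ X := (le_max_right _ _).trans ((le_max_left _ _).trans hX)
  have hX2 : 2 ≤ X := (le_max_right _ _).trans hX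
  have hXp : 0 < X := by linarith
  have hl : 0 < Real.log X := Real.log_pos (by linarith)
  have hf0 : 0 < f X := lt_of_lt_of_le (by positivity) (hlo X hX0)
  have e1 : Real.log (f X) ≤ Real.log C + (L + ε / 3) * Real.log X := by
    rw [← Real.log_rpow hXp, ← Real.log_mul hC.ne' (by positivity)]
    exact Real.log_le_log hf0 (hup X (by linarith))
  have e2 : Real.log c + L * Real.log X ≤ Real.log (f X) := by
    rw [← Real.log_rpow hXp, ← Real.log_mul hc.ne' (by positivity)]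
    exact Real.log_le_log (by positivity) (hlo X hX0)
  have e3 := hX₁ X hX1
  have e4 := (le_max_left _ _).trans e3
  have e5 := (le_max_right _ _).trans e3
  rw [Real.dist_eq, abs_lt]
  have hεl : 0 < ε * Real.log X := by positivity
  constructor
  · rw [neg_lt_sub_iff_lt_add, ← sub_lt_iff_lt_add', lt_div_iff₀ hl]
    linarith
  · rw [sub_lt_iff_lt_add', div_lt_iff₀ hl]
    linarith

/-- the curves of `Lg` are among those of `Up` for large `X` -/
theorem lg_sub_up {κ A : ℝ} (hκ : 0 < κ) (hA : κ < A) : ∃ X₀ : ℝ, ∀ X : ℝ, X₀ ≤ X →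
    Lg Full κ 20000000000 X ⊆ Up κ A X := by
  have h1 : Tendsto (fun X : ℝ => X ^ (A - κ)) atTop atTop := tendsto_rpow_atTop (by linarith)
  obtain ⟨X₀, h⟩ := eventually_atTop.1 ((h1.eventually (eventually_ge_atTop 20000000000)).and
    (eventually_ge_atTop 1))
  refine ⟨X₀, fun X hX => ?_⟩
  obtain ⟨h2, h3⟩ := h X hX
  have hX0 : 0 < X := by linarith
  have h4 : 20000000000 * X ^ κ ≤ X ^ A := by
    calc 20000000000 * X ^ κ ≤ X ^ (A - κ) * X ^ κ := by gcongr
      _ = X ^ A := by rw [← Real.rpow_add hX0]; congr 1; ring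
  rintro q ⟨W, w1, w2, w3, w4, w5, w6, w7, w8⟩
  refine ⟨W, w1, w2, w3, w4, w5, ?_, w7.trans h4, w8.trans h4⟩
  refine le_trans ?_ w6
  exact Real.rpow_le_rpow (Nat.cast_nonneg _) w5 hκ.le

/-- **The exponent.** -/
theorem main_exp {κ A : ℝ} (h2 : 2 ≤ κ) (h3 : κ ≤ 18 / 7) (hA : κ < A) :
    Tendsto (fun X : ℝ => Real.log ((Up κ A X).ncard : ℝ) / Real.log X) atTop
      (𝓝 (1 - κ / 6)) := by
  refine tendsto_exponent (fun ε hε => ?_) ?_
  · obtain ⟨C, hC, h⟩ := upper κ A ε h2 (by linarith) hε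
    refine ⟨C, hC, fun X hX => ?_⟩
    have h4 := (h X hX).2
    rwa [max_eq_left (by linarith)] at h4
  · obtain ⟨X₁, hX₁, h1⟩ := low_full κ h2 (by linarith)
    obtain ⟨X₂, h4⟩ := lg_sub_up (κ := κ) (A := A) (by linarith) hA
    obtain ⟨C, hC, h⟩ := upper κ A 1 h2 (by linarith) one_pos
    refine ⟨1 / 3000000, by norm_num, max (max X₁ X₂) 1, fun X hX => ?_⟩
    have hX1 : X₁ ≤ X := (le_max_left _ _).trans ((le_max_left _ _).trans hX)
    have hX2 : X₂ ≤ X := (le_max_right _ _).trans ((le_max_left _ _).trans hX)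
    have hX3 : 1 ≤ X := (le_max_right _ _).trans hX
    refine (h1 X hX1).trans ?_
    exact_mod_cast Set.ncard_le_ncard (h4 X hX2) (h X hX3).1

end Pool.Agent.R417.LD
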