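import Pool.Agent.R417.LD.Sieve

/-!
# Semistable curves with full 2-torsion and a large discriminant
-/

set_option autoImplicit false

namespace Pool.Agent.R417.LD

open Finset Filter Topology

/-- the product of the primes dividing the discriminant -/
def cond (W : WeierstrassCurve ℤ) : ℕ := ∏ p ∈ W.Δ.natAbs.primeFactors, p

def Full (W : WeierstrassCurve ℤ) : Prop :=
  ∃ r₁ r₂ r₃ : ℚ, ∀ x : ℚ,
    4 * x ^ 3 + W.b₂ * x ^ 2 + 2 * W.b₄ * x + W.b₆ = 4 * (x - r₁) * (x - r₂) * (x - r₃)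

/-- the curves with conductor `≤ X`, discriminant `≥ X ^ κ` and height `≤ K X ^ κ` -/
def Lg (P : WeierstrassCurve ℤ → Prop) (κ K X : ℝ) : Set (ℤ × ℤ) :=
  {q | ∃ W : WeierstrassCurve ℤ, W.Δ ≠ 0 ∧ IsCoprime W.c₄ W.Δ ∧ P W ∧ q = (W.c₄, W.c₆) ∧
    (cond W : ℝ) ≤ X ∧ X ^ κ ≤ |(W.Δ : ℝ)| ∧ |(W.c₄ : ℝ)| ^ 3 ≤ K * X ^ κ ∧
    (W.c₆ : ℝ) ^ 2 ≤ K * X ^ κ}

/-- finitely many pairs of bounded integers -/
theorem box_finite (T : ℝ) (S : Set (ℤ × ℤ)) (h : ∀ q ∈ S, |(q.1 : ℝ)| ≤ T ∧ |(q.2 : ℝ)| ≤ T) :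
    S.Finite := by
  refine Set.Finite.subset (Finset.finite_toSet
    (Icc (-(⌊T⌋₊ : ℤ)) ⌊T⌋₊ ×ˢ Icc (-(⌊T⌋₊ : ℤ)) ⌊T⌋₊)) ?_
  intro q hq
  obtain ⟨h1, h2⟩ := h q hq
  have key : ∀ x : ℤ, |(x : ℝ)| ≤ T → x ∈ Icc (-(⌊T⌋₊ : ℤ)) ⌊T⌋₊ := by
    intro x hx
    rw [mem_Icc, ← abs_le]
    have h' : ((x.natAbs : ℕ) : ℝ) ≤ T := by
      rw [Nat.cast_natAbs]; push_cast; exact hx
    have h'' := Nat.le_floor h'
    rw [Int.abs_eq_natAbs]
    exact_mod_cast h''
  rw [mem_coe, mem_product]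
  exact ⟨key _ h1, key _ h2⟩

theorem lg_finite (P : WeierstrassCurve ℤ → Prop) (κ K X : ℝ) (hK : 0 ≤ K) (hX : 0 < X) :
    (Lg P κ K X).Finite := by
  have hB : 0 ≤ K * X ^ κ := by positivity
  refine box_finite (1 + K * X ^ κ) _ ?_
  rintro q ⟨W, -, -, -, rfl, -, -, h4, h6⟩
  constructor
  · by_contra hcon
    push Not at hcon
    simp only at hcon
    have h1 : 1 ≤ |(W.c₄ : ℝ)| := by linarith
    have h2 : |(W.c₄ : ℝ)| ≤ |(W.c₄ : ℝ)| ^ 3 := le_self_pow₀ h1 (by norm_num)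
    linarith
  · by_contra hcon
    push Not at hcon
    simp only at hcon
    have h1 : 1 ≤ |(W.c₆ : ℝ)| := by linarith
    have h2 : |(W.c₆ : ℝ)| ≤ |(W.c₆ : ℝ)| ^ 2 := le_self_pow₀ h1 (by norm_num)
    rw [sq_abs] at h2
    linarith

/-- the curve `y² + x y = x³ + (4 b - a) x² - (4 a - 1) b x` -/
def Wm (a b : ℤ) : WeierstrassCurve ℤ where
  a₁ := 1
  a₂ := 4 * b - a
  a₃ := 0
  a₄ := -((4 * a - 1) * b)
  a₆ := 0

theorem Wm_c4 (a b : ℤ) : (Wm a b).c₄ = (4 * a - 1) ^ 2 + (4 * a - 1) * (16 * b) + (16 * b) ^ 2 := by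
  unfold Wm WeierstrassCurve.c₄ WeierstrassCurve.b₂ WeierstrassCurve.b₄
  ring

theorem Wm_D (a b : ℤ) : (Wm a b).Δ = ((4 * a - 1) * b * (4 * a - 1 + 16 * b)) ^ 2 := by
  unfold Wm WeierstrassCurve.Δ WeierstrassCurve.b₂ WeierstrassCurve.b₄ WeierstrassCurve.b₆
    WeierstrassCurve.b₈
  ring

theorem Wm_full (a b : ℤ) : Full (Wm a b) := by
  refine ⟨0, -4 * b, (4 * a - 1) / 4, fun x => ?_⟩
  unfold Wm WeierstrassCurve.b₂ WeierstrassCurve.b₄ WeierstrassCurve.b₆
  push_cast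
  ring

theorem cop_form {x y : ℤ} (h : IsCoprime x y) :
    IsCoprime (x ^ 2 + x * y + y ^ 2) (x * y * (x + y)) := by
  have h1 : IsCoprime (x ^ 2 + x * y + y ^ 2) x := by
    have e : x ^ 2 + x * y + y ^ 2 = y ^ 2 + x * (x + y) := by ring
    rw [e]
    exact (h.symm.pow_left (m := 2)).add_mul_left_left _
  have h2 : IsCoprime (x ^ 2 + x * y + y ^ 2) y := by
    have e : x ^ 2 + x * y + y ^ 2 = x ^ 2 + y * (x + y) := by ring
    rw [e]
    exact (h.pow_left (m := 2)).add_mul_left_left _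
  have h3 : IsCoprime (x ^ 2 + x * y + y ^ 2) (x + y) := by
    have e : x ^ 2 + x * y + y ^ 2 = x ^ 2 + (x + y) * y := by ring
    rw [e]
    have h4 : IsCoprime x (x + y) := by
      have := h.add_mul_left_right 1
      rw [mul_one, add_comm] at this
      exact this
    exact (h4.pow_left (m := 2)).add_mul_left_left _
  exact (h1.mul_right h2).mul_right h3

theorem rad_le_of {n a m : ℕ} (ha : a ≠ 0) (hm : m ≠ 0)
    (h : ∀ p : ℕ, p.Prime → p ∣ n → p ∣ a ∨ p ∣ m) :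
    ∏ p ∈ n.primeFactors, p ≤ a * m := by
  have h1 : n.primeFactors ⊆ (a * m).primeFactors := by
    intro p hp
    have hpp := Nat.prime_of_mem_primeFactors hp
    refine Nat.mem_primeFactors.mpr ⟨hpp, ?_, mul_ne_zero ha hm⟩
    rcases h p hpp (Nat.dvd_of_mem_primeFactors hp) with h2 | h2
    · exact h2.mul_right _
    · exact h2.mul_left _
  refine Nat.le_of_dvd (Nat.pos_of_ne_zero (mul_ne_zero ha hm)) ?_
  exact (prod_dvd_prod_of_subset _ _ _ h1).trans (Nat.prod_primeFactors_dvd _)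

/-- the curve of `u = 3 ^ n l`, `v = 2 ^ s k` -/
theorem curve {n s l k : ℕ} (hk6 : k % 6 = 1) (hl2 : l % 2 = 1)
    (h4 : (3 ^ n * l) % 4 = 3) (hcop : ∀ p : ℕ, p.Prime → 5 ≤ p → (p : ℤ) ∣ (l : ℤ) → (p : ℤ) ∣ (k : ℤ) → False) :
    ∃ W : WeierstrassCurve ℤ, W.Δ ≠ 0 ∧ IsCoprime W.c₄ W.Δ ∧ Full W ∧
      W.c₄ = ((3 ^ n * l : ℕ) : ℤ) ^ 2 + ((3 ^ n * l : ℕ) : ℤ) * (16 * ((2 ^ s * k : ℕ) : ℤ)) +
        (16 * ((2 ^ s * k : ℕ) : ℤ)) ^ 2 ∧
      W.Δ = (((3 ^ n * l : ℕ) : ℤ) * ((2 ^ s * k : ℕ) : ℤ) *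
        (((3 ^ n * l : ℕ) : ℤ) + 16 * ((2 ^ s * k : ℕ) : ℤ))) ^ 2 ∧
      cond W ≤ 6 * (l * k * (3 ^ n * l + 16 * (2 ^ s * k))) := by
  obtain ⟨u, hu⟩ : ∃ u : ℕ, u = 3 ^ n * l := ⟨_, rfl⟩
  obtain ⟨v, hv⟩ : ∃ v : ℕ, v = 2 ^ s * k := ⟨_, rfl⟩
  have hl0 : l ≠ 0 := by rintro rfl; omega
  have hk0 : k ≠ 0 := by rintro rfl; omega
  have hu0 : u ≠ 0 := by rw [hu]; positivity
  have hv0 : v ≠ 0 := by rw [hv]; positivity
  rw [← hu] at h4
  obtain ⟨a, ha⟩ : ∃ a : ℤ, 4 * a - 1 = (u : ℤ) := ⟨((u : ℤ) + 1) / 4, by omega⟩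
  have hc4 := Wm_c4 a v
  have hD := Wm_D a v
  rw [ha] at hc4 hD
  have hlk : Nat.Coprime l k := by
    rw [Nat.coprime_iff_gcd_eq_one]
    by_contra hg
    obtain ⟨p, hp, hpd⟩ := Nat.exists_prime_and_dvd hg
    have h1 := hpd.trans (Nat.gcd_dvd_left l k)
    have h2 := hpd.trans (Nat.gcd_dvd_right l k)
    have h5 : 5 ≤ p := by
      by_contra hlt
      push Not at hlt
      have h3 := hp.two_le
      interval_cases p
      · omega
      · omega
      · norm_num at hp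
    exact hcop p hp h5 (Int.natCast_dvd_natCast.mpr h1) (Int.natCast_dvd_natCast.mpr h2)
  have h2l : Nat.Coprime 2 l := Nat.coprime_two_left.mpr (Nat.odd_iff.mpr hl2)
  have h3k : Nat.Coprime 3 k := by
    rw [Nat.Prime.coprime_iff_not_dvd Nat.prime_three]
    omega
  have hcuv : Nat.Coprime u (16 * v) := by
    rw [hu, hv]
    have h16 : (16 : ℕ) = 2 ^ 4 := by norm_num
    rw [h16]
    have e1 : Nat.Coprime (3 ^ n) (2 ^ 4) := Nat.Coprime.pow _ _ (by norm_num)
    have e2 : Nat.Coprime (3 ^ n) (2 ^ s) := Nat.Coprime.pow _ _ (by norm_num)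
    have e3 : Nat.Coprime (3 ^ n) k := Nat.Coprime.pow_left _ h3k
    have e4 : Nat.Coprime l (2 ^ 4) := Nat.Coprime.pow_right _ h2l.symm
    have e5 : Nat.Coprime l (2 ^ s) := Nat.Coprime.pow_right _ h2l.symm
    exact Nat.Coprime.mul_left (Nat.Coprime.mul_right e1 (Nat.Coprime.mul_right e2 e3))
      (Nat.Coprime.mul_right e4 (Nat.Coprime.mul_right e5 hlk))
  have hcZ : IsCoprime (u : ℤ) (16 * (v : ℤ)) := by
    have := Nat.isCoprime_iff_coprime.mpr hcuv
    push_cast at this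
    exact this
  have hcf := cop_form hcZ
  have hDne : (Wm a v).Δ ≠ 0 := by
    rw [hD]
    have h1 : (0 : ℤ) < u := by exact_mod_cast Nat.pos_of_ne_zero hu0
    have h2 : (0 : ℤ) < v := by exact_mod_cast Nat.pos_of_ne_zero hv0
    positivity
  refine ⟨Wm a v, hDne, ?_, Wm_full a v, ?_, ?_, ?_⟩
  · rw [hc4, hD]
    refine (hcf.of_isCoprime_of_dvd_right ?_).pow_right
    exact ⟨16, by ring⟩
  · rw [hc4, hu, hv]
  · rw [hD, hu, hv]
  · unfold cond
    rw [hD, Int.natAbs_pow, Nat.primeFactors_pow _ (by norm_num)]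
    have e : ((u : ℤ) * v * ((u : ℤ) + 16 * v)).natAbs = u * v * (u + 16 * v) := by
      have : ((u : ℤ) * v * ((u : ℤ) + 16 * v)) = ((u * v * (u + 16 * v) : ℕ) : ℤ) := by push_cast; ring
      rw [this, Int.natAbs_natCast]
    rw [e, ← hu, ← hv]
    refine rad_le_of (by norm_num) (by positivity) ?_
    intro p hp hpd
    rcases (Nat.Prime.dvd_mul hp).mp hpd with h | h
    · rcases (Nat.Prime.dvd_mul hp).mp h with h | h
      · rw [hu] at h
        rcases (Nat.Prime.dvd_mul hp).mp h with h | h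
        · left
          have := hp.dvd_of_dvd_pow h
          exact this.trans (by norm_num)
        · right
          exact (h.mul_right _).mul_right _
      · rw [hv] at h
        rcases (Nat.Prime.dvd_mul hp).mp h with h | h
        · left
          have := hp.dvd_of_dvd_pow h
          exact this.trans (by norm_num)
        · right
          exact (h.mul_left _).mul_right _
    · right
      exact h.mul_left _

/-- the pair is determined by the invariants -/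
theorem pair_inj {x y x' y' : ℤ} (hx : 0 < x) (hy : 0 < y) (hx' : 0 < x') (hy' : 0 < y')
    (hxo : x' % 2 = 1) (hye : y % 2 = 0)
    (h2 : x ^ 2 + x * y + y ^ 2 = x' ^ 2 + x' * y' + y' ^ 2)
    (h3 : x * y * (x + y) = x' * y' * (x' + y')) : x = x' ∧ y = y' := by
  have h4 : (x' - x) * (x' - y) * (x' + (x + y)) = 0 := by
    linear_combination (-x') * h2 + h3
  have h5 : x' + (x + y) ≠ 0 := by positivity
  have h6 : x' = x := by
    rcases mul_eq_zero.mp h4 with h | h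
    · rcases mul_eq_zero.mp h with h | h
      · linarith
      · exfalso
        have : x' = y := by linarith
        omega
    · exact absurd h h5
  refine ⟨h6.symm, ?_⟩
  rw [← h6] at h2
  have h7 : (y - y') * (x' + (y + y')) = 0 := by linear_combination h2
  rcases mul_eq_zero.mp h7 with h | h
  · linarith
  · have : 0 < x' + (y + y') := by positivity
    omega

/-- the lower bound in terms of the size `Y` and the saving `S` -/
theorem low_core {Y S X : ℝ} (hX : X = Y * S ^ 2) (hS : 2424 ≤ S) (hYS : S ≤ Y)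
    (hlog : 16 * (1 + Real.log (8 * Y)) * 1212 ≤ S) (κ : ℝ) (hκ : X ^ κ = Y ^ 6) :
    X / (3000000 * Y) ≤ ((Lg Full κ 20000000000 X).ncard : ℝ) := by
  classical
  have hS0 : 0 < S := by linarith
  have hY0 : 0 < Y := by linarith
  have hX0 : 0 < X := by rw [hX]; positivity
  obtain ⟨Q, hQ⟩ : ∃ Q : ℝ, Q = 101 * Y / S := ⟨_, rfl⟩
  have hQ1 : 101 ≤ Q := by
    rw [hQ, le_div_iff₀ hS0]
    linarith
  have hQY : 24 * Q ≤ Y := by
    rw [hQ]
    have : 24 * (101 * Y / S) = 2424 * Y / S := by ring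
    rw [this, div_le_iff₀ hS0]
    nlinarith
  obtain ⟨n', hn1, hn2⟩ := exists_nat_pow_near (y := (3 : ℝ)) (by linarith : 1 ≤ Q) (by norm_num)
  obtain ⟨s', hs1, hs2⟩ := exists_nat_pow_near (y := (2 : ℝ)) (by linarith : 1 ≤ Q) (by norm_num)
  obtain ⟨n, hn⟩ : ∃ n : ℕ, n = n' + 1 := ⟨_, rfl⟩
  obtain ⟨s, hs⟩ : ∃ s : ℕ, s = s' + 1 := ⟨_, rfl⟩
  rw [← hn] at hn2
  rw [← hs] at hs2
  have hn3 : (3 : ℝ) ^ n ≤ 3 * Q := by rw [hn, pow_succ]; linarith
  have hs3 : (2 : ℝ) ^ s ≤ 2 * Q := by rw [hs, pow_succ]; linarith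
  clear hn hs hn1 hs1 n' s'
  obtain ⟨a, ha⟩ : ∃ a : ℝ, a = (3 : ℝ) ^ n := ⟨_, rfl⟩
  obtain ⟨b, hb⟩ : ∃ b : ℝ, b = (2 : ℝ) ^ s := ⟨_, rfl⟩
  rw [← ha] at hn2 hn3
  rw [← hb] at hs2 hs3
  have ha0 : 0 < a := by linarith
  have hb0 : 0 < b := by linarith
  obtain ⟨J, hJ⟩ : ∃ J : ℕ, J = ⌈Y / (4 * a)⌉₊ := ⟨_, rfl⟩
  obtain ⟨I, hI⟩ : ∃ I : ℕ, I = ⌈Y / (6 * b)⌉₊ := ⟨_, rfl⟩
  have hJ1 : Y / (4 * a) ≤ J := by rw [hJ]; exact Nat.le_ceil _
  have hJ2 : (J : ℝ) < Y / (4 * a) + 1 := by rw [hJ]; exact Nat.ceil_lt_add_one (by positivity)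
  have hI1 : Y / (6 * b) ≤ I := by rw [hI]; exact Nat.le_ceil _
  have hI2 : (I : ℝ) < Y / (6 * b) + 1 := by rw [hI]; exact Nat.ceil_lt_add_one (by positivity)
  have hJ3 : Y ≤ 4 * a * J := by
    rw [div_le_iff₀ (by positivity)] at hJ1; linarith
  have hI3 : Y ≤ 6 * b * I := by
    rw [div_le_iff₀ (by positivity)] at hI1; linarith
  have hJ4 : 4 * a * J ≤ Y + 4 * a := by
    have : 4 * a * J ≤ 4 * a * (Y / (4 * a) + 1) := by gcongr
    refine this.trans (le_of_eq ?_)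
    field_simp
  have hI4 : 6 * b * I ≤ Y + 6 * b := by
    have : 6 * b * I ≤ 6 * b * (Y / (6 * b) + 1) := by gcongr
    refine this.trans (le_of_eq ?_)
    field_simp
  have hYQ : S / 1212 = Y / (12 * Q) := by
    rw [hQ]
    field_simp
    norm_num
  have hJS : S / 1212 ≤ J := by
    rw [hYQ]
    refine le_trans ?_ hJ1
    apply div_le_div_of_nonneg_left hY0.le (by positivity)
    linarith
  have hIS : S / 1212 ≤ I := by
    rw [hYQ]
    refine le_trans ?_ hI1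
    apply div_le_div_of_nonneg_left hY0.le (by positivity)
    linarith
  have hlog0 : 0 ≤ Real.log (8 * Y) := Real.log_nonneg (by linarith)
  have hI64 : (64 : ℝ) ≤ I := by
    refine le_trans ?_ hIS
    rw [le_div_iff₀ (by norm_num)]
    have h2 : Real.log (8 * Y) ≥ 3 := by
      have h8 : Real.exp 3 ≤ 8 * Y := by
        have h3 : Real.exp 3 ≤ 27 := by
          have h4 := Real.exp_one_lt_d9
          have h5 : Real.exp 3 = Real.exp 1 ^ 3 := by
            rw [← Real.exp_nat_mul]; norm_num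
          rw [h5]
          calc Real.exp 1 ^ 3 ≤ 3 ^ 3 := pow_le_pow_left₀ (Real.exp_pos _).le (by linarith) 3
            _ = 27 := by norm_num
        linarith
      rw [ge_iff_le, ← Real.log_exp 3]
      exact Real.log_le_log (Real.exp_pos _) h8
    nlinarith
  have hJY : (J : ℝ) ≤ Y := by
    have h1 : Y / (4 * a) ≤ Y / 2 := div_le_div_of_nonneg_left hY0.le (by norm_num) (by linarith)
    linarith
  have hJpos : 0 < J := by
    have : (0 : ℝ) < J := lt_of_lt_of_le (by positivity) hJS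
    exact_mod_cast this
  -- the residue
  obtain ⟨c, hc, hc2, hc4⟩ : ∃ c : ℕ, c ≤ 3 ∧ c % 2 = 1 ∧ (3 ^ n * c) % 4 = 3 := by
    have h9 : ∀ m : ℕ, 3 ^ m % 4 = 1 ∨ 3 ^ m % 4 = 3 := by
      intro m
      induction m with
      | zero => left; norm_num
      | succ m ih => rw [pow_succ]; omega
    rcases h9 n with h | h
    · exact ⟨3, le_rfl, by norm_num, by omega⟩
    · exact ⟨1, by norm_num, by norm_num, by omega⟩
  obtain ⟨T, hT, hTc⟩ := sieve J I (8 * J) (fun j => ((4 * (J + j) + c : ℕ) : ℤ))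
    (fun _ i => ((6 * (I + i) + 1 : ℕ) : ℤ)) (by
      intro j hj
      refine ⟨by exact_mod_cast (by omega : 4 * (J + j) + c ≠ 0), ?_⟩
      rw [Int.natAbs_natCast]
      omega) (by
      intro p hp hp5 j j' h1 h2
      have h3 : (p : ℤ) ∣ (4 : ℤ) * ((j : ℤ) - j') := by
        have := dvd_sub h1 h2
        push_cast at this
        have e : (4 * ((J : ℤ) + j) + c) - (4 * ((J : ℤ) + j') + c) = 4 * ((j : ℤ) - j') := by ring
        rw [e] at this
        exact this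
      rcases (Nat.prime_iff_prime_int.mp hp).dvd_or_dvd h3 with h4 | h4
      · exfalso
        have h5 : p ∣ 4 := by exact_mod_cast h4
        have := Nat.le_of_dvd (by norm_num) h5
        omega
      · exact ((Nat.modEq_iff_dvd).mpr (by
          have : (j' : ℤ) - j = -((j : ℤ) - j') := by ring
          rw [this]
          exact (dvd_neg).mpr h4))) (by
      intro p hp hp5 _ i i' h1 h2
      have h3 : (p : ℤ) ∣ (6 : ℤ) * ((i : ℤ) - i') := by
        have := dvd_sub h1 h2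
        push_cast at this
        have e : (6 * ((I : ℤ) + i) + 1) - (6 * ((I : ℤ) + i') + 1) = 6 * ((i : ℤ) - i') := by ring
        rw [e] at this
        exact this
      rcases (Nat.prime_iff_prime_int.mp hp).dvd_or_dvd h3 with h4 | h4
      · exfalso
        have h5 : p ∣ 6 := by exact_mod_cast h4
        have h6 := Nat.le_of_dvd (by norm_num) h5
        interval_cases p
        · omega
        · norm_num at hp
      · exact ((Nat.modEq_iff_dvd).mpr (by
          have : (i' : ℤ) - i = -((i : ℤ) - i') := by ring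
          rw [this]
          exact (dvd_neg).mpr h4))) (by
      refine le_trans ?_ hJS
      rw [le_div_iff₀ (by norm_num)]
      refine le_trans ?_ hlog
      have : Real.log ((8 * J : ℕ) : ℝ) ≤ Real.log (8 * Y) := by
        apply Real.log_le_log
        · have : (0 : ℝ) < J := by exact_mod_cast hJpos
          push_cast
          positivity
        · push_cast
          linarith
      gcongr) (by
      refine le_trans ?_ hIS
      rw [le_div_iff₀ (by norm_num)]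
      refine le_trans ?_ hlog
      have : Real.log ((8 * J : ℕ) : ℝ) ≤ Real.log (8 * Y) := by
        apply Real.log_le_log
        · have : (0 : ℝ) < J := by exact_mod_cast hJpos
          push_cast
          positivity
        · push_cast
          linarith
      gcongr) (by
      push_cast
      have : (0 : ℝ) ≤ J := Nat.cast_nonneg _
      nlinarith)
  -- the curves
  have hex : ∀ q ∈ T, ∃ W : WeierstrassCurve ℤ, W.Δ ≠ 0 ∧ IsCoprime W.c₄ W.Δ ∧ Full W ∧
      W.c₄ = ((3 ^ n * (4 * (J + q.1) + c) : ℕ) : ℤ) ^ 2 + ((3 ^ n * (4 * (J + q.1) + c) : ℕ) : ℤ) *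
        (16 * ((2 ^ s * (6 * (I + q.2) + 1) : ℕ) : ℤ)) + (16 * ((2 ^ s * (6 * (I + q.2) + 1) : ℕ) : ℤ)) ^ 2 ∧
      W.Δ = (((3 ^ n * (4 * (J + q.1) + c) : ℕ) : ℤ) * ((2 ^ s * (6 * (I + q.2) + 1) : ℕ) : ℤ) *
        (((3 ^ n * (4 * (J + q.1) + c) : ℕ) : ℤ) + 16 * ((2 ^ s * (6 * (I + q.2) + 1) : ℕ) : ℤ))) ^ 2 ∧
      cond W ≤ 6 * ((4 * (J + q.1) + c) * (6 * (I + q.2) + 1) *
        (3 ^ n * (4 * (J + q.1) + c) + 16 * (2 ^ s * (6 * (I + q.2) + 1)))) := by
    intro q hq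
    obtain ⟨_, _, h3⟩ := hT q hq
    refine curve (by omega) (by omega) ?_ h3
    have e : 3 ^ n * (4 * (J + q.1) + c) = 4 * (3 ^ n * (J + q.1)) + 3 ^ n * c := by ring
    rw [e]
    omega
  choose! W w1 w2 w3 w4 w5 w6 using hex
  have hu : ∀ q ∈ T, Y ≤ a * (4 * (J + q.1) + c) ∧ a * (4 * (J + q.1) + c) ≤ 3 * Y := by
    intro q hq
    obtain ⟨h1, _, _⟩ := hT q hq
    have h1' : ((q.1 : ℕ) : ℝ) + 1 ≤ J := by exact_mod_cast h1
    have hc' : (c : ℝ) ≤ 3 := by exact_mod_cast hc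
    have hq0 : (0 : ℝ) ≤ (q.1 : ℝ) := Nat.cast_nonneg _
    have hc0 : (0 : ℝ) ≤ (c : ℝ) := Nat.cast_nonneg _
    constructor
    · have : a * (4 * J) ≤ a * (4 * (J + q.1) + c) := by
        apply mul_le_mul_of_nonneg_left _ ha0.le
        linarith
      linarith
    · have : a * (4 * (J + q.1) + c) ≤ a * (8 * J) := by
        apply mul_le_mul_of_nonneg_left _ ha0.le
        linarith
      linarith
  have hv : ∀ q ∈ T, Y ≤ b * (6 * (I + q.2) + 1) ∧ b * (6 * (I + q.2) + 1) ≤ 3 * Y := by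
    intro q hq
    obtain ⟨_, h1, _⟩ := hT q hq
    have h1' : ((q.2 : ℕ) : ℝ) + 1 ≤ I := by exact_mod_cast h1
    have hq0 : (0 : ℝ) ≤ (q.2 : ℝ) := Nat.cast_nonneg _
    constructor
    · have : b * (6 * I) ≤ b * (6 * (I + q.2) + 1) := by
        apply mul_le_mul_of_nonneg_left _ hb0.le
        linarith
      linarith
    · have : b * (6 * (I + q.2) + 1) ≤ b * (12 * I) := by
        apply mul_le_mul_of_nonneg_left _ hb0.le
        linarith
      linarith
  have hmem : ∀ q ∈ T, ((W q).c₄, (W q).c₆) ∈ Lg Full κ 20000000000 X := by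
    intro q hq
    obtain ⟨u1, u2⟩ := hu q hq
    obtain ⟨v1, v2⟩ := hv q hq
    obtain ⟨l, hl⟩ : ∃ l : ℝ, l = 4 * (J + q.1) + c := ⟨_, rfl⟩
    obtain ⟨k, hk⟩ : ∃ k : ℝ, k = 6 * (I + q.2) + 1 := ⟨_, rfl⟩
    rw [← hl] at u1 u2
    rw [← hk] at v1 v2
    have hl0 : 0 < l := by
      have : (0 : ℝ) < J := by exact_mod_cast hJpos
      rw [hl]; positivity
    have hk0 : 0 < k := by rw [hk]; positivity
    have e4 : ((W q).c₄ : ℝ) = (a * l) ^ 2 + (a * l) * (16 * (b * k)) + (16 * (b * k)) ^ 2 := by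
      rw [w4 q hq, ha, hb, hl, hk]; push_cast; ring
    have eD : ((W q).Δ : ℝ) = ((a * l) * (b * k) * (a * l + 16 * (b * k))) ^ 2 := by
      rw [w5 q hq, ha, hb, hl, hk]; push_cast; ring
    have eN : (cond (W q) : ℝ) ≤ 6 * (l * k * (a * l + 16 * (b * k))) := by
      have h1 : (cond (W q) : ℝ) ≤ ((6 * ((4 * (J + q.1) + c) * (6 * (I + q.2) + 1) *
        (3 ^ n * (4 * (J + q.1) + c) + 16 * (2 ^ s * (6 * (I + q.2) + 1)))) : ℕ) : ℝ) := by
        exact_mod_cast w6 q hq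
      refine h1.trans (le_of_eq ?_)
      rw [ha, hb, hl, hk]; push_cast; ring
    have hbd : (W q).c₄ ≤ 2457 * Y ^ 2 := by
      rw [e4]
      calc (a * l) ^ 2 + (a * l) * (16 * (b * k)) + (16 * (b * k)) ^ 2 ≤
            (3 * Y) ^ 2 + (3 * Y) * (16 * (3 * Y)) + (16 * (3 * Y)) ^ 2 := by gcongr
        _ = 2457 * Y ^ 2 := by ring
    have h40 : (0 : ℝ) ≤ (W q).c₄ := by rw [e4]; positivity
    have h43 : ((W q).c₄ : ℝ) ^ 3 ≤ 20000000000 * X ^ κ := by
      rw [hκ]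
      calc ((W q).c₄ : ℝ) ^ 3 ≤ (2457 * Y ^ 2) ^ 3 := pow_le_pow_left₀ h40 hbd 3
        _ = 2457 ^ 3 * Y ^ 6 := by ring
        _ ≤ _ := by
            have : (0 : ℝ) ≤ Y ^ 6 := by positivity
            nlinarith
    have hD0 : (0 : ℝ) ≤ (W q).Δ := by rw [eD]; positivity
    refine ⟨W q, w1 q hq, w2 q hq, w3 q hq, rfl, ?_, ?_, ?_, ?_⟩
    · refine eN.trans ?_
      have hal : l ≤ 3 * Y / Q := by
        rw [le_div_iff₀ (by linarith)]
        calc l * Q ≤ l * a := by gcongr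
          _ = a * l := mul_comm _ _
          _ ≤ 3 * Y := u2
      have hbk : k ≤ 3 * Y / Q := by
        rw [le_div_iff₀ (by linarith)]
        calc k * Q ≤ k * b := by gcongr
          _ = b * k := mul_comm _ _
          _ ≤ 3 * Y := v2
      have hQ0 : 0 < Q := by linarith
      calc 6 * (l * k * (a * l + 16 * (b * k))) ≤
            6 * ((3 * Y / Q) * (3 * Y / Q) * (3 * Y + 16 * (3 * Y))) := by gcongr
        _ = 2754 * Y ^ 3 / Q ^ 2 := by field_simp; ring
        _ = 2754 / 10201 * X := by rw [hQ, hX]; field_simp; norm_num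
        _ ≤ X := by linarith
    · rw [abs_of_nonneg hD0, eD, hκ]
      have h1 : Y * Y * Y ≤ (a * l) * (b * k) * (a * l + 16 * (b * k)) := by
        gcongr
        have : 0 ≤ b * k := by positivity
        linarith
      calc Y ^ 6 = (Y * Y * Y) ^ 2 := by ring
        _ ≤ _ := pow_le_pow_left₀ (by positivity) h1 2
    · rw [abs_of_nonneg h40]
      exact h43
    · have hrel : 1728 * ((W q).Δ : ℝ) = ((W q).c₄ : ℝ) ^ 3 - ((W q).c₆ : ℝ) ^ 2 := by
        exact_mod_cast (W q).c_relation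
      linarith
  have hinj : Set.InjOn (fun q => ((W q).c₄, (W q).c₆)) (T : Set (ℕ × ℕ)) := by
    intro q hq q' hq' he
    rw [mem_coe] at hq hq'
    simp only [Prod.mk.injEq] at he
    have hD : (W q).Δ = (W q').Δ := by
      have h1 := (W q).c_relation
      have h2 := (W q').c_relation
      rw [he.1, he.2, ← h2] at h1
      linarith
    have h4 := he.1
    rw [w4 q hq, w4 q' hq'] at h4
    rw [w5 q hq, w5 q' hq'] at hD
    obtain ⟨u, hu'⟩ : ∃ u : ℕ, u = 3 ^ n * (4 * (J + q.1) + c) := ⟨_, rfl⟩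
    obtain ⟨v, hv'⟩ : ∃ v : ℕ, v = 2 ^ s * (6 * (I + q.2) + 1) := ⟨_, rfl⟩
    obtain ⟨u', hu''⟩ : ∃ u : ℕ, u = 3 ^ n * (4 * (J + q'.1) + c) := ⟨_, rfl⟩
    obtain ⟨v', hv''⟩ : ∃ v : ℕ, v = 2 ^ s * (6 * (I + q'.2) + 1) := ⟨_, rfl⟩
    rw [← hu', ← hv', ← hu'', ← hv''] at h4 hD
    have hu0 : (0 : ℤ) < u := by rw [hu']; positivity
    have hv0 : (0 : ℤ) < v := by rw [hv']; positivity
    have hu0' : (0 : ℤ) < u' := by rw [hu'']; positivity
    have hv0' : (0 : ℤ) < v' := by rw [hv'']; positivity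
    have hodd : (u' : ℤ) % 2 = 1 := by
      have : u' % 2 = 1 := by
        rw [hu'']
        have h3 : 3 ^ n % 2 = 1 := by
          rw [Nat.pow_mod]; norm_num
        rw [Nat.mul_mod, h3]
        omega
      exact_mod_cast this
    have h3 : (u : ℤ) * (16 * v) * (u + 16 * v) = u' * (16 * v') * (u' + 16 * v') := by
      have h5 : (u : ℤ) * v * (u + 16 * v) = u' * v' * (u' + 16 * v') := by
        have h6 : (0 : ℤ) ≤ (u : ℤ) * v * (u + 16 * v) := by positivity
        have h7 : (0 : ℤ) ≤ (u' : ℤ) * v' * (u' + 16 * v') := by positivity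
        exact (sq_eq_sq₀ h6 h7).mp hD
      linear_combination 16 * h5
    obtain ⟨e1, e2⟩ := pair_inj hu0 (by positivity : (0 : ℤ) < 16 * v) hu0'
      (by positivity : (0 : ℤ) < 16 * v') hodd (by omega) h4 h3
    have e1' : u = u' := by exact_mod_cast e1
    have e2' : v = v' := by omega
    rw [hu', hu''] at e1'
    rw [hv', hv''] at e2'
    have e3 := Nat.eq_of_mul_eq_mul_left (by positivity) e1'
    have e4 := Nat.eq_of_mul_eq_mul_left (by positivity) e2'
    ext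
    · omega
    · omega
  have hfin := lg_finite Full κ 20000000000 X (by norm_num) hX0
  have hcard : T.card ≤ (Lg Full κ 20000000000 X).ncard := by
    rw [← card_image_of_injOn hinj, ← Set.ncard_coe_finset]
    refine Set.ncard_le_ncard ?_ hfin
    intro x hx
    rw [mem_coe, mem_image] at hx
    obtain ⟨q, hq, rfl⟩ := hx
    exact hmem q hq
  have hcard' : (T.card : ℝ) ≤ ((Lg Full κ 20000000000 X).ncard : ℝ) := by exact_mod_cast hcard
  refine le_trans ?_ (hTc.trans hcard')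
  have hQ0 : 0 < Q := by linarith
  calc X / (3000000 * Y) ≤ (Y / (4 * (3 * Q))) * (Y / (6 * (2 * Q))) / 2 := by
        rw [hQ, hX]
        have : Y / (4 * (3 * (101 * Y / S))) * (Y / (6 * (2 * (101 * Y / S)))) / 2 =
            S ^ 2 / 2937888 := by
          field_simp
          norm_num
        rw [this]
        have h2 : Y * S ^ 2 / (3000000 * Y) = S ^ 2 / 3000000 := by field_simp
        rw [h2]
        apply div_le_div_of_nonneg_left (by positivity) (by norm_num) (by norm_num)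
    _ ≤ (J : ℝ) * I / 2 := by
        have h1 : Y / (4 * (3 * Q)) ≤ J := by
          refine le_trans ?_ hJ1
          apply div_le_div_of_nonneg_left hY0.le (by positivity)
          linarith
        have h2 : Y / (6 * (2 * Q)) ≤ I := by
          refine le_trans ?_ hI1
          apply div_le_div_of_nonneg_left hY0.le (by positivity)
          linarith
        gcongr

end Pool.Agent.R417.LD
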