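import Pool.Agent.R417.LD.Full

/-!
# Semistable curves with a large discriminant: the general case
-/

set_option autoImplicit false

namespace Pool.Agent.R417.LD

open Finset Filter Topology

/-- the curve `y² + x y = x³ + a x + b` -/
def Wg (a b : ℤ) : WeierstrassCurve ℤ where
  a₁ := 1
  a₂ := 0
  a₃ := 0
  a₄ := a
  a₆ := b

theorem Wg_c4 (a b : ℤ) : (Wg a b).c₄ = 1 - 48 * a := by
  unfold Wg WeierstrassCurve.c₄ WeierstrassCurve.b₂ WeierstrassCurve.b₄
  ring

theorem Wg_c6 (a b : ℤ) : (Wg a b).c₆ = -1 + 72 * a - 864 * b := by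
  unfold Wg WeierstrassCurve.c₆ WeierstrassCurve.b₂ WeierstrassCurve.b₄ WeierstrassCurve.b₆
  ring

theorem Wg_D (a b : ℤ) : (Wg a b).Δ = -b + a ^ 2 - 64 * a ^ 3 - 432 * b ^ 2 + 72 * a * b := by
  unfold Wg WeierstrassCurve.Δ WeierstrassCurve.b₂ WeierstrassCurve.b₄ WeierstrassCurve.b₆
    WeierstrassCurve.b₈
  ring

/-- the discriminant as a function of `A = - a₄` and `b = a₆` -/
def fD (A b : ℤ) : ℤ := -b + A ^ 2 + 64 * A ^ 3 - 432 * b ^ 2 - 72 * A * b

theorem fD_dvd (A b b' N : ℤ) (h : N ∣ b - b') : N ∣ fD A b - fD A b' := by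
  have e : fD A b - fD A b' = (b - b') * (-1 - 432 * (b + b') - 72 * A) := by
    unfold fD; ring
  rw [e]
  exact h.mul_right _

/-- the discriminant is divisible by a given power of two for some residue class of `b` -/
theorem exists_beta (A : ℤ) (m : ℕ) : ∃ β : ℕ, β < 2 ^ m ∧ (2 : ℤ) ^ m ∣ fD A β := by
  classical
  let g : Fin (2 ^ m) → Fin (2 ^ m) := fun b =>
    ⟨(fD A (b : ℕ) % ((2 : ℤ) ^ m)).toNat, by
      have h0 : (0 : ℤ) < 2 ^ m := by positivity
      have h1 := Int.emod_nonneg (fD A (b : ℕ)) h0.ne'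
      have h2 := Int.emod_lt_of_pos (fD A (b : ℕ)) h0
      have : (((fD A (b : ℕ) % ((2 : ℤ) ^ m)).toNat : ℕ) : ℤ) < ((2 ^ m : ℕ) : ℤ) := by
        rw [Int.toNat_of_nonneg h1]
        push_cast
        exact h2
      exact_mod_cast this⟩
  have hinj : Function.Injective g := by
    intro b b' h
    have h0 : (0 : ℤ) < 2 ^ m := by positivity
    have h1 : (fD A (b : ℕ) % ((2 : ℤ) ^ m)).toNat = (fD A (b' : ℕ) % ((2 : ℤ) ^ m)).toNat :=
      congrArg Fin.val h
    have h2 : fD A (b : ℕ) % ((2 : ℤ) ^ m) = fD A (b' : ℕ) % ((2 : ℤ) ^ m) := by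
      rw [← Int.toNat_of_nonneg (Int.emod_nonneg (fD A (b : ℕ)) h0.ne'),
        ← Int.toNat_of_nonneg (Int.emod_nonneg (fD A (b' : ℕ)) h0.ne'), h1]
    have h3 : (2 : ℤ) ^ m ∣ fD A (b : ℕ) - fD A (b' : ℕ) :=
      Int.ModEq.dvd (Int.ModEq.symm h2)
    have e : fD A (b : ℕ) - fD A (b' : ℕ) =
        (((b : ℕ) : ℤ) - (b' : ℕ)) * (-1 - 2 * (216 * (((b : ℕ) : ℤ) + (b' : ℕ)) + 36 * A)) := by
      unfold fD; ring
    rw [e] at h3
    have hc : IsCoprime ((2 : ℤ) ^ m) (-1 - 2 * (216 * (((b : ℕ) : ℤ) + (b' : ℕ)) + 36 * A)) := by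
      apply IsCoprime.pow_left
      refine ⟨-(216 * (((b : ℕ) : ℤ) + (b' : ℕ)) + 36 * A), -1, ?_⟩
      ring
    have h4 := hc.dvd_of_dvd_mul_right h3
    have hb := b.2
    have hb' := b'.2
    have h5 : |((b : ℕ) : ℤ) - (b' : ℕ)| < 2 ^ m := by
      rw [abs_lt]
      have e1 : (((b : ℕ) : ℕ) : ℤ) < 2 ^ m := by exact_mod_cast hb
      have e2 : (((b' : ℕ) : ℕ) : ℤ) < 2 ^ m := by exact_mod_cast hb'
      have e3 : (0 : ℤ) ≤ ((b : ℕ) : ℤ) := by positivity
      have e4 : (0 : ℤ) ≤ ((b' : ℕ) : ℤ) := by positivity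
      constructor <;> linarith
    have h6 := Int.eq_zero_of_abs_lt_dvd h4 h5
    apply Fin.ext
    have : ((b : ℕ) : ℤ) = (b' : ℕ) := by linarith
    exact_mod_cast this
  have hsurj := Finite.surjective_of_injective hinj
  obtain ⟨β, hβ⟩ := hsurj ⟨0, by positivity⟩
  refine ⟨β, β.2, ?_⟩
  have h1 : (fD A (β : ℕ) % ((2 : ℤ) ^ m)).toNat = 0 := congrArg Fin.val hβ
  have h0 : (0 : ℤ) < 2 ^ m := by positivity
  have h2 := Int.emod_nonneg (fD A (β : ℕ)) h0.ne'
  apply Int.dvd_of_emod_eq_zero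
  omega

/-- the lower bound in terms of `V = X ^ (κ/6)` and `S = X ^ (1 - κ/2)` -/
theorem low_core2 {V S X : ℝ} (hX : X = S * V ^ 3) (hS : 768 * 60000 ≤ S) (hV : 1 ≤ V)
    (hVS : S ≤ V ^ 3) (hlog : 16 * (1 + Real.log (192 * V ^ 2)) * 60000 ≤ S)
    (hlog2 : 16 * (1 + Real.log (192 * V ^ 2)) ≤ V ^ 2) (κ : ℝ) (hκ : X ^ κ = V ^ 6) :
    V ^ 2 * S / 120000 ≤ ((Lg (fun _ => True) κ 20000000000 X).ncard : ℝ) := by
  classical
  have hS0 : 0 < S := by linarith
  have hV0 : 0 < V := by linarith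
  have hX0 : 0 < X := by rw [hX]; positivity
  have hV2 : 1 ≤ V ^ 2 := one_le_pow₀ hV
  have hV3 : 1 ≤ V ^ 3 := one_le_pow₀ hV
  have hx1 : 1 ≤ 3510 * V ^ 3 / S := by
    rw [le_div_iff₀ hS0]
    linarith
  obtain ⟨m', hm1, hm2⟩ := exists_nat_pow_near (y := (2 : ℝ)) hx1 (by norm_num)
  obtain ⟨m, hm⟩ : ∃ m : ℕ, m = m' + 1 := ⟨_, rfl⟩
  rw [← hm] at hm2
  have hm3 : (2 : ℝ) ^ m ≤ 2 * (3510 * V ^ 3 / S) := by rw [hm, pow_succ]; linarith
  clear hm hm1 m'
  obtain ⟨M, hM⟩ : ∃ M : ℝ, M = (2 : ℝ) ^ m := ⟨_, rfl⟩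
  rw [← hM] at hm2 hm3
  have hM0 : 0 < M := by rw [hM]; positivity
  obtain ⟨y, hy⟩ : ∃ y : ℕ, y = ⌈V ^ 2⌉₊ := ⟨_, rfl⟩
  have hy1 : V ^ 2 ≤ y := by rw [hy]; exact Nat.le_ceil _
  have hy2 : (y : ℝ) < V ^ 2 + 1 := by rw [hy]; exact Nat.ceil_lt_add_one (by positivity)
  have hy0 : 0 < y := by
    have : (0 : ℝ) < y := by linarith
    exact_mod_cast this
  obtain ⟨K, hK⟩ : ∃ K : ℕ, K = ⌊V ^ 3 / (8 * M)⌋₊ := ⟨_, rfl⟩
  have hK1 : (K : ℝ) ≤ V ^ 3 / (8 * M) := by rw [hK]; exact Nat.floor_le (by positivity)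
  have hK2 : V ^ 3 / (8 * M) < K + 1 := by rw [hK]; exact Nat.lt_floor_add_one _
  have hK3 : M * K ≤ V ^ 3 / 8 := by
    rw [le_div_iff₀ (by positivity)] at hK1
    linarith
  have hK4 : S / 56160 ≤ V ^ 3 / (8 * M) := by
    rw [div_le_div_iff₀ (by norm_num) (by positivity)]
    have : M * S ≤ 2 * (3510 * V ^ 3) := by
      have h1 : M * S ≤ 2 * (3510 * V ^ 3 / S) * S := by gcongr
      have h2 : 2 * (3510 * V ^ 3 / S) * S = 2 * (3510 * V ^ 3) := by field_simp
      linarith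
    linarith
  have hKS : S / 60000 ≤ K := by
    have : S / 56160 - 1 ≤ K := by linarith
    linarith
  have hK768 : (768 : ℝ) ≤ K := by linarith
  choose β hβ1 hβ2 using fun i : ℕ => exists_beta (((y + i : ℕ) : ℤ)) m
  obtain ⟨T, hT, hTc⟩ := sieve y K (96 * y) (fun i => 1 + 48 * ((y + i : ℕ) : ℤ))
    (fun i k => 1 + 72 * ((y + i : ℕ) : ℤ) + 864 * ((β i + 2 ^ m * k : ℕ) : ℤ)) (by
      intro i hi
      have h1 : (0 : ℤ) < 1 + 48 * ((y + i : ℕ) : ℤ) := by positivity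
      refine ⟨h1.ne', ?_⟩
      have h2 : (1 + 48 * ((y + i : ℕ) : ℤ)) = ((1 + 48 * (y + i) : ℕ) : ℤ) := by push_cast; ring
      rw [h2, Int.natAbs_natCast]
      omega) (by
      intro p hp hp5 i i' h1 h2
      have h3 : (p : ℤ) ∣ (48 : ℤ) * ((i : ℤ) - i') := by
        have := dvd_sub h1 h2
        push_cast at this
        have e : (1 + 48 * ((y : ℤ) + i)) - (1 + 48 * ((y : ℤ) + i')) = 48 * ((i : ℤ) - i') := by ring
        rw [e] at this
        exact this
      rcases (Nat.prime_iff_prime_int.mp hp).dvd_or_dvd h3 with h4 | h4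
      · exfalso
        have h5 : p ∣ 6 ^ 4 := by
          have : p ∣ 48 := by exact_mod_cast h4
          exact this.trans (by norm_num)
        have h6 := Nat.le_of_dvd (by norm_num) (hp.dvd_of_dvd_pow h5)
        have h7 := hp.dvd_of_dvd_pow h5
        interval_cases p
        · omega
        · norm_num at hp
      · exact ((Nat.modEq_iff_dvd).mpr (by
          have : (i' : ℤ) - i = -((i : ℤ) - i') := by ring
          rw [this]
          exact (dvd_neg).mpr h4))) (by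
      intro p hp hp5 i j j' h1 h2
      have h3 : (p : ℤ) ∣ ((864 * 2 ^ m : ℕ) : ℤ) * ((j : ℤ) - j') := by
        have := dvd_sub h1 h2
        push_cast at this
        have e : (1 + 72 * ((y : ℤ) + i) + 864 * ((β i : ℤ) + 2 ^ m * j)) -
            (1 + 72 * ((y : ℤ) + i) + 864 * ((β i : ℤ) + 2 ^ m * j')) =
            864 * 2 ^ m * ((j : ℤ) - j') := by ring
        rw [e] at this
        push_cast
        exact this
      rcases (Nat.prime_iff_prime_int.mp hp).dvd_or_dvd h3 with h4 | h4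
      · exfalso
        have h5 : p ∣ 6 ^ (5 + m) := by
          have : p ∣ 864 * 2 ^ m := Int.natCast_dvd_natCast.mp h4
          refine this.trans ?_
          rw [pow_add]
          exact Nat.mul_dvd_mul (by norm_num) (pow_dvd_pow_of_dvd (by norm_num) m)
        have h7 := hp.dvd_of_dvd_pow h5
        have h6 := Nat.le_of_dvd (by norm_num) h7
        interval_cases p
        · omega
        · norm_num at hp
      · exact ((Nat.modEq_iff_dvd).mpr (by
          have : (j' : ℤ) - j = -((j : ℤ) - j') := by ring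
          rw [this]
          exact (dvd_neg).mpr h4))) (by
      refine le_trans ?_ hy1
      refine le_trans ?_ hlog2
      have : Real.log ((96 * y : ℕ) : ℝ) ≤ Real.log (192 * V ^ 2) := by
        apply Real.log_le_log
        · have : (0 : ℝ) < y := by exact_mod_cast hy0
          push_cast
          positivity
        · push_cast
          linarith
      gcongr) (by
      refine le_trans ?_ hKS
      rw [le_div_iff₀ (by norm_num)]
      refine le_trans ?_ hlog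
      have : Real.log ((96 * y : ℕ) : ℝ) ≤ Real.log (192 * V ^ 2) := by
        apply Real.log_le_log
        · have : (0 : ℝ) < y := by exact_mod_cast hy0
          push_cast
          positivity
        · push_cast
          linarith
      gcongr) (by
      push_cast
      have : (0 : ℝ) ≤ y := Nat.cast_nonneg _
      nlinarith)
  obtain ⟨W, hW⟩ : ∃ W : ℕ × ℕ → WeierstrassCurve ℤ, W = fun q =>
    Wg (-((y + q.1 : ℕ) : ℤ)) ((β q.1 + 2 ^ m * q.2 : ℕ) : ℤ) := ⟨_, rfl⟩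
  have hc4 : ∀ q, (W q).c₄ = 1 + 48 * ((y + q.1 : ℕ) : ℤ) := by
    intro q; rw [hW]; simp only; rw [Wg_c4]; ring
  have hc6 : ∀ q, (W q).c₆ = -(1 + 72 * ((y + q.1 : ℕ) : ℤ) + 864 * ((β q.1 + 2 ^ m * q.2 : ℕ) : ℤ)) := by
    intro q; rw [hW]; simp only; rw [Wg_c6]; ring
  have hD : ∀ q, (W q).Δ = fD ((y + q.1 : ℕ) : ℤ) ((β q.1 + 2 ^ m * q.2 : ℕ) : ℤ) := by
    intro q; rw [hW]; simp only; rw [Wg_D]; unfold fD; ring
  have hdiv : ∀ q, (2 : ℤ) ^ m ∣ (W q).Δ := by
    intro q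
    rw [hD]
    have h1 := fD_dvd ((y + q.1 : ℕ) : ℤ) ((β q.1 + 2 ^ m * q.2 : ℕ) : ℤ) (β q.1 : ℤ) (2 ^ m)
      ⟨(q.2 : ℤ), by push_cast; ring⟩
    have h2 := dvd_add h1 (hβ2 q.1)
    rwa [sub_add_cancel] at h2
  have hmem : ∀ q ∈ T, ((W q).c₄, (W q).c₆) ∈ Lg (fun _ => True) κ 20000000000 X := by
    intro q hq
    obtain ⟨t1, t2, t3⟩ := hT q hq
    obtain ⟨A, hA⟩ : ∃ A : ℝ, A = ((y + q.1 : ℕ) : ℝ) := ⟨_, rfl⟩
    obtain ⟨b, hb⟩ : ∃ b : ℝ, b = ((β q.1 + 2 ^ m * q.2 : ℕ) : ℝ) := ⟨_, rfl⟩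
    have hA1 : V ^ 2 ≤ A := by
      rw [hA]; push_cast
      have : (0 : ℝ) ≤ (q.1 : ℝ) := Nat.cast_nonneg _
      linarith
    have hA2 : A ≤ 3 * V ^ 2 := by
      have h1 : y + q.1 ≤ 2 * y - 1 := by omega
      have h2 : ((y + q.1 : ℕ) : ℝ) ≤ 2 * y - 1 := by
        have h3 : y + q.1 + 1 ≤ 2 * y := by omega
        have h4 : (((y + q.1 : ℕ) : ℝ) + 1) ≤ 2 * y := by exact_mod_cast h3
        linarith
      rw [hA]
      linarith
    have hb0 : 0 ≤ b := by rw [hb]; positivity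
    have hb2 : b ≤ V ^ 3 / 8 := by
      refine le_trans ?_ hK3
      have h1 : β q.1 + 2 ^ m * q.2 ≤ 2 ^ m * K := by
        have h2 := hβ1 q.1
        have h3 : 2 ^ m * (q.2 + 1) ≤ 2 ^ m * K := Nat.mul_le_mul_left _ (by omega)
        rw [Nat.mul_add, Nat.mul_one] at h3
        omega
      rw [hb, hM]
      exact_mod_cast h1
    have hA0 : 0 < A := by linarith
    have e4 : ((W q).c₄ : ℝ) = 1 + 48 * A := by rw [hc4, hA]; push_cast; ring
    have e6 : ((W q).c₆ : ℝ) = -(1 + 72 * A + 864 * b) := by rw [hc6, hA, hb]; push_cast; ring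
    have eD : ((W q).Δ : ℝ) = -b + A ^ 2 + 64 * A ^ 3 - 432 * b ^ 2 - 72 * A * b := by
      rw [hD, hA, hb]; unfold fD; push_cast; ring
    have hV6 : V ^ 3 ≤ V ^ 6 := pow_le_pow_right₀ hV (by norm_num)
    have hb3 : b ^ 2 ≤ V ^ 6 / 64 := by
      calc b ^ 2 ≤ (V ^ 3 / 8) ^ 2 := pow_le_pow_left₀ hb0 hb2 2
        _ = _ := by ring
    have hlow : V ^ 6 ≤ (W q).Δ := by
      rw [eD]
      have h1 : 72 * A * b ≤ 9 * A * V ^ 3 := by
        have : A * b ≤ A * (V ^ 3 / 8) := by gcongr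
        linarith
      have h2 : V ^ 4 ≤ A ^ 2 := by
        calc V ^ 4 = (V ^ 2) ^ 2 := by ring
          _ ≤ A ^ 2 := pow_le_pow_left₀ (by positivity) hA1 2
      have h3 : V ^ 3 ≤ V ^ 4 := pow_le_pow_right₀ hV (by norm_num)
      have h4 : A * V ^ 3 ≤ A * A ^ 2 := by
        apply mul_le_mul_of_nonneg_left _ hA0.le
        linarith
      have h5 : V ^ 6 ≤ A ^ 3 := by
        calc V ^ 6 = (V ^ 2) ^ 3 := by ring
          _ ≤ A ^ 3 := pow_le_pow_left₀ (by positivity) hA1 3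
      have h6 : A * A ^ 2 = A ^ 3 := by ring
      have h7 : 0 ≤ A ^ 2 := by positivity
      linarith
    have hup : (W q).Δ ≤ 1755 * V ^ 6 := by
      rw [eD]
      have h1 : A ^ 3 ≤ 27 * V ^ 6 := by
        calc A ^ 3 ≤ (3 * V ^ 2) ^ 3 := pow_le_pow_left₀ hA0.le hA2 3
          _ = 27 * V ^ 6 := by ring
      have h2 : A ^ 2 ≤ A ^ 3 := pow_le_pow_right₀ (by linarith) (by norm_num)
      have h3 : 0 ≤ A * b := by positivity
      have h4 : 0 ≤ b ^ 2 := by positivity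
      linarith
    have hV60 : (0 : ℝ) < V ^ 6 := by positivity
    have hDpos : (0 : ℝ) < (W q).Δ := by linarith
    have hDpos' : 0 < (W q).Δ := by exact_mod_cast hDpos
    refine ⟨W q, hDpos'.ne', ?_, trivial, rfl, ?_, ?_, ?_, ?_⟩
    · -- coprimality
      rw [Int.isCoprime_iff_gcd_eq_one]
      by_contra hg
      obtain ⟨p, hp, hpd⟩ := Nat.exists_prime_and_dvd hg
      have h1 : (p : ℤ) ∣ (W q).c₄ := (Int.natCast_dvd_natCast.mpr hpd).trans (Int.gcd_dvd_left ..)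
      have h2 : (p : ℤ) ∣ (W q).Δ := (Int.natCast_dvd_natCast.mpr hpd).trans (Int.gcd_dvd_right ..)
      have h3 : (p : ℤ) ∣ (W q).c₆ := by
        have h4 : (W q).c₆ ^ 2 = (W q).c₄ ^ 3 - 1728 * (W q).Δ := by
          have := (W q).c_relation
          linarith
        have h5 : (p : ℤ) ∣ (W q).c₆ ^ 2 := by
          rw [h4]
          exact dvd_sub (h1.trans (dvd_pow_self _ (by norm_num))) (h2.mul_left _)
        exact (Nat.prime_iff_prime_int.mp hp).dvd_of_dvd_pow h5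
      have h5 : 5 ≤ p := by
        by_contra hlt
        push Not at hlt
        have h6 := hp.two_le
        rw [hc4] at h1
        interval_cases p
        · omega
        · omega
        · norm_num at hp
      refine t3 p hp h5 ?_ ?_
      · rw [hc4] at h1; exact h1
      · rw [hc6] at h3; exact (dvd_neg).mp h3
    · -- the conductor
      obtain ⟨D', hD'⟩ := hdiv q
      have hD'pos : 0 < D' := by
        rw [hD'] at hDpos'
        exact (pos_iff_pos_of_mul_pos hDpos').mp (by positivity)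
      have h1 : cond (W q) ≤ 2 * D'.natAbs := by
        unfold cond
        refine rad_le_of (by norm_num) (by omega) ?_
        intro p hp hpd
        rw [hD', Int.natAbs_mul, Int.natAbs_pow] at hpd
        rcases (Nat.Prime.dvd_mul hp).mp hpd with h | h
        · left
          exact hp.dvd_of_dvd_pow h
        · exact Or.inr h
      have h2 : ((2 * D'.natAbs : ℕ) : ℝ) = 2 * (D' : ℝ) := by
        push_cast
        rw [Nat.cast_natAbs, abs_of_pos hD'pos]
      have h3 : (cond (W q) : ℝ) ≤ 2 * (D' : ℝ) := by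
        rw [← h2]; exact_mod_cast h1
      have h4 : M * (D' : ℝ) = (W q).Δ := by
        rw [hD', hM]; push_cast; ring
      refine h3.trans ?_
      have h5 : (3510 * V ^ 3 / S) * (D' : ℝ) ≤ 1755 * V ^ 6 := by
        have h6 : (0 : ℝ) ≤ D' := by exact_mod_cast hD'pos.le
        calc (3510 * V ^ 3 / S) * (D' : ℝ) ≤ M * D' := by gcongr
          _ = (W q).Δ := h4
          _ ≤ _ := hup
      have h7 : 3510 * V ^ 3 / S * (2 * (D' : ℝ)) ≤ 3510 * V ^ 3 / S * X := by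
        have e : 3510 * V ^ 3 / S * X = 3510 * V ^ 6 := by rw [hX]; field_simp
        rw [e]
        linarith
      exact le_of_mul_le_mul_left h7 (by positivity)
    · rw [abs_of_pos hDpos, hκ]
      exact hlow
    · rw [abs_of_nonneg (by rw [e4]; positivity), e4, hκ]
      have h1 : 1 + 48 * A ≤ 145 * V ^ 2 := by linarith
      calc (1 + 48 * A) ^ 3 ≤ (145 * V ^ 2) ^ 3 := pow_le_pow_left₀ (by positivity) h1 3
        _ = 145 ^ 3 * V ^ 6 := by ring
        _ ≤ _ := by linarith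
    · rw [e6, hκ, neg_sq]
      have h0 : V ^ 2 ≤ V ^ 3 := pow_le_pow_right₀ hV (by norm_num)
      have h1 : 1 + 72 * A + 864 * b ≤ 325 * V ^ 3 := by linarith
      calc (1 + 72 * A + 864 * b) ^ 2 ≤ (325 * V ^ 3) ^ 2 := pow_le_pow_left₀ (by positivity) h1 2
        _ = 325 ^ 2 * V ^ 6 := by ring
        _ ≤ _ := by linarith
  have hinj : Set.InjOn (fun q => ((W q).c₄, (W q).c₆)) (T : Set (ℕ × ℕ)) := by
    intro q _ q' _ he
    simp only [Prod.mk.injEq] at he
    obtain ⟨e1, e2⟩ := he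
    rw [hc4, hc4] at e1
    have h1 : q.1 = q'.1 := by omega
    rw [hc6, hc6, h1] at e2
    have h2 : ((β q'.1 + 2 ^ m * q.2 : ℕ) : ℤ) = ((β q'.1 + 2 ^ m * q'.2 : ℕ) : ℤ) := by linarith
    have h3 : β q'.1 + 2 ^ m * q.2 = β q'.1 + 2 ^ m * q'.2 := by exact_mod_cast h2
    have h4 := Nat.eq_of_mul_eq_mul_left (by positivity) (Nat.add_left_cancel h3)
    exact Prod.ext h1 h4
  have hfin := lg_finite (fun _ => True) κ 20000000000 X (by norm_num) hX0
  have hcard : T.card ≤ (Lg (fun _ => True) κ 20000000000 X).ncard := by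
    rw [← card_image_of_injOn hinj, ← Set.ncard_coe_finset]
    refine Set.ncard_le_ncard ?_ hfin
    intro x hx
    rw [mem_coe, mem_image] at hx
    obtain ⟨q, hq, rfl⟩ := hx
    exact hmem q hq
  have hcard' : (T.card : ℝ) ≤ ((Lg (fun _ => True) κ 20000000000 X).ncard : ℝ) := by
    exact_mod_cast hcard
  refine le_trans ?_ (hTc.trans hcard')
  calc V ^ 2 * S / 120000 = V ^ 2 * (S / 60000) / 2 := by ring
    _ ≤ _ := by gcongr

end Pool.Agent.R417.LD
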