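import Mathlib

/-!
# At least half of the pairs have no common prime factor `≥ 5`
-/

set_option autoImplicit false

namespace Pool.Agent.R417.LD

open Finset

/-- numbers below `N` in one residue class -/
theorem class_card {p N : ℕ} (S : Finset ℕ) (hS : ∀ x ∈ S, x < N)
    (h : ∀ x ∈ S, ∀ y ∈ S, x ≡ y [MOD p]) : S.card ≤ N / p + 1 := by
  have h1 : S.card ≤ (range (N / p + 1)).card := by
    refine card_le_card_of_injOn (fun x => x / p) ?_ ?_
    · intro x hx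
      rw [mem_coe, mem_range, Nat.lt_succ_iff]
      exact Nat.div_le_div_right (hS x hx).le
    · intro x hx y hy hxy
      simp only at hxy
      have h2 : x % p = y % p := h x hx y hy
      rw [← Nat.div_add_mod x p, ← Nat.div_add_mod y p, hxy, h2]
  rwa [card_range] at h1

theorem sum_sq5 (R : ℕ) : ∑ n ∈ Icc 5 R, (1 : ℝ) / (n : ℝ) ^ 2 ≤ 1 / 4 := by
  have key : ∀ R : ℕ, 4 ≤ R → ∑ n ∈ Icc 5 R, (1 : ℝ) / (n : ℝ) ^ 2 ≤ 1 / 4 - 1 / R := by
    intro R hR
    induction R, hR using Nat.le_induction with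
    | base => simp
    | succ n hn ih =>
      rw [← insert_Icc_right_eq_Icc_add_one (by omega), sum_insert (by simp)]
      have hn0 : (0 : ℝ) < n := by
        have : 0 < n := by omega
        exact_mod_cast this
      have h1 : (1 : ℝ) / ((n + 1 : ℕ) : ℝ) ^ 2 ≤ 1 / n - 1 / ((n + 1 : ℕ) : ℝ) := by
        push_cast
        rw [div_sub_div _ _ (by positivity) (by positivity),
          div_le_div_iff₀ (by positivity) (by positivity)]
        nlinarith
      linarith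
  rcases Nat.lt_or_ge R 4 with h | h
  · rw [Icc_eq_empty (by omega), sum_empty]
    norm_num
  · have h1 := key R h
    have h2 : (0 : ℝ) ≤ 1 / (R : ℝ) := by positivity
    linarith

theorem sum_inv5 (R : ℕ) : ∑ n ∈ Icc 5 R, (1 : ℝ) / (n : ℝ) ≤ 1 + Real.log R := by
  have h1 : ∑ n ∈ Icc 5 R, (1 : ℝ) / (n : ℝ) ≤ ∑ n ∈ Icc 1 R, (1 : ℝ) / (n : ℝ) := by
    refine sum_le_sum_of_subset_of_nonneg (Icc_subset_Icc_left (by norm_num)) ?_
    intro i _ _
    positivity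
  refine h1.trans ?_
  have h2 := harmonic_le_one_add_log R
  rw [harmonic_eq_sum_Icc] at h2
  push_cast at h2
  refine le_trans (le_of_eq ?_) h2
  refine sum_congr rfl (fun i _ => ?_)
  rw [one_div]

/-- the sieve -/
theorem sieve (I J R : ℕ) (F : ℕ → ℤ) (G : ℕ → ℕ → ℤ)
    (hF0 : ∀ i < I, F i ≠ 0 ∧ (F i).natAbs ≤ R)
    (hF : ∀ p : ℕ, p.Prime → 5 ≤ p → ∀ i i', (p : ℤ) ∣ F i → (p : ℤ) ∣ F i' → i ≡ i' [MOD p])
    (hG : ∀ p : ℕ, p.Prime → 5 ≤ p → ∀ i j j', (p : ℤ) ∣ G i j → (p : ℤ) ∣ G i j' →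
      j ≡ j' [MOD p])
    (hI : 16 * (1 + Real.log R) ≤ I) (hJ : 16 * (1 + Real.log R) ≤ J)
    (hIJ : 8 * (R : ℝ) ≤ (I : ℝ) * J) :
    ∃ T : Finset (ℕ × ℕ), (∀ q ∈ T, q.1 < I ∧ q.2 < J ∧ ∀ p : ℕ, p.Prime → 5 ≤ p →
      (p : ℤ) ∣ F q.1 → (p : ℤ) ∣ G q.1 q.2 → False) ∧ (I : ℝ) * J / 2 ≤ (T.card : ℝ) := by
  classical
  set good := (range I ×ˢ range J).filter (fun q : ℕ × ℕ => ∀ p : ℕ, p.Prime → 5 ≤ p →
      (p : ℤ) ∣ F q.1 → (p : ℤ) ∣ G q.1 q.2 → False) with hgood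
  set bad := (range I ×ˢ range J).filter (fun q : ℕ × ℕ => ¬ (∀ p : ℕ, p.Prime → 5 ≤ p →
      (p : ℤ) ∣ F q.1 → (p : ℤ) ∣ G q.1 q.2 → False)) with hbad
  refine ⟨good, fun q hq => ?_, ?_⟩
  · rw [hgood, mem_filter, mem_product, mem_range, mem_range] at hq
    exact ⟨hq.1.1, hq.1.2, hq.2⟩
  have h1 : (good.card : ℝ) + bad.card = I * J := by
    have := card_filter_add_card_filter_not (s := range I ×ˢ range J) (fun q : ℕ × ℕ => ∀ p : ℕ, p.Prime →
      5 ≤ p → (p : ℤ) ∣ F q.1 → (p : ℤ) ∣ G q.1 q.2 → False)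
    rw [card_product, card_range, card_range] at this
    exact_mod_cast this
  let BP : ℕ → Finset (ℕ × ℕ) := fun p => if p.Prime then
    (range I ×ˢ range J).filter (fun q : ℕ × ℕ => (p : ℤ) ∣ F q.1 ∧ (p : ℤ) ∣ G q.1 q.2) else ∅
  have hsub : bad ⊆ (Icc 5 R).biUnion BP := by
    intro q hq
    rw [hbad, mem_filter, mem_product, mem_range, mem_range] at hq
    obtain ⟨⟨hi, hj⟩, hq⟩ := hq
    push Not at hq
    obtain ⟨p, hp, hp5, hpF, hpG, -⟩ := hq
    rw [mem_biUnion]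
    refine ⟨p, ?_, ?_⟩
    · rw [mem_Icc]
      refine ⟨hp5, ?_⟩
      obtain ⟨h2, h3⟩ := hF0 q.1 hi
      have h4 : p ∣ (F q.1).natAbs := Int.natCast_dvd.mp hpF
      exact (Nat.le_of_dvd (Int.natAbs_pos.mpr h2) h4).trans h3
    · change q ∈ (if p.Prime then _ else _)
      rw [if_pos hp, mem_filter, mem_product, mem_range, mem_range]
      exact ⟨⟨hi, hj⟩, hpF, hpG⟩
  have hBP : ∀ p ∈ Icc 5 R, ((BP p).card : ℝ) ≤ ((I : ℝ) / p + 1) * ((J : ℝ) / p + 1) := by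
    intro p hp
    rw [mem_Icc] at hp
    have hp0 : (0 : ℝ) < p := by
      have : 0 < p := by omega
      exact_mod_cast this
    change (((if p.Prime then _ else _ : Finset (ℕ × ℕ)).card : ℕ) : ℝ) ≤ _
    split_ifs with hpp
    · set S := (range I).filter (fun i => (p : ℤ) ∣ F i) with hS
      have hS1 : S.card ≤ I / p + 1 := by
        refine class_card S (fun x hx => mem_range.mp (mem_filter.mp hx).1) ?_
        intro x hx y hy
        exact hF p hpp hp.1 x y (mem_filter.mp hx).2 (mem_filter.mp hy).2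
      have hsub2 : (range I ×ˢ range J).filter (fun q : ℕ × ℕ => (p : ℤ) ∣ F q.1 ∧ (p : ℤ) ∣ G q.1 q.2) ⊆
          S.biUnion (fun i => ((range J).filter (fun j => (p : ℤ) ∣ G i j)).image (fun j => (i, j))) := by
        rintro ⟨i, j⟩ hq
        rw [mem_filter, mem_product] at hq
        obtain ⟨⟨hi, hj⟩, h2, h3⟩ := hq
        rw [mem_biUnion]
        exact ⟨i, mem_filter.mpr ⟨hi, h2⟩, mem_image.mpr ⟨j, mem_filter.mpr ⟨hj, h3⟩, rfl⟩⟩
      have h4 : ((range I ×ˢ range J).filter (fun q : ℕ × ℕ => (p : ℤ) ∣ F q.1 ∧ (p : ℤ) ∣ G q.1 q.2)).card ≤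
          (I / p + 1) * (J / p + 1) := by
        refine (card_le_card hsub2).trans (card_biUnion_le.trans ?_)
        calc ∑ i ∈ S, (((range J).filter (fun j => (p : ℤ) ∣ G i j)).image (fun j => (i, j))).card ≤
              ∑ i ∈ S, (J / p + 1) := by
              refine sum_le_sum (fun i _ => card_image_le.trans ?_)
              refine class_card _ (fun x hx => mem_range.mp (mem_filter.mp hx).1) ?_
              intro x hx y hy
              exact hG p hpp hp.1 i x y (mem_filter.mp hx).2 (mem_filter.mp hy).2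
          _ = S.card * (J / p + 1) := by rw [sum_const, smul_eq_mul]
          _ ≤ _ := Nat.mul_le_mul_right _ hS1
      calc _ ≤ (((I / p + 1) * (J / p + 1) : ℕ) : ℝ) := by exact_mod_cast h4
        _ ≤ _ := by
            push_cast
            have e1 : ((I / p : ℕ) : ℝ) ≤ (I : ℝ) / p := Nat.cast_div_le
            have e2 : ((J / p : ℕ) : ℝ) ≤ (J : ℝ) / p := Nat.cast_div_le
            gcongr
    · rw [card_empty, Nat.cast_zero]
      positivity
  have h2 : (bad.card : ℝ) ≤ ∑ p ∈ Icc 5 R, ((I : ℝ) / p + 1) * ((J : ℝ) / p + 1) := by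
    have h3 : (bad.card : ℝ) ≤ ∑ p ∈ Icc 5 R, ((BP p).card : ℝ) := by
      exact_mod_cast (card_le_card hsub).trans card_biUnion_le
    exact h3.trans (sum_le_sum hBP)
  have h3 : ∑ p ∈ Icc 5 R, ((I : ℝ) / p + 1) * ((J : ℝ) / p + 1) =
      (I : ℝ) * J * ∑ p ∈ Icc 5 R, (1 : ℝ) / (p : ℝ) ^ 2 +
        ((I : ℝ) + J) * ∑ p ∈ Icc 5 R, (1 : ℝ) / (p : ℝ) + ((Icc 5 R).card : ℝ) := by
    rw [mul_sum, mul_sum, ← sum_add_distrib, card_eq_sum_ones, Nat.cast_sum, ← sum_add_distrib]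
    refine sum_congr rfl (fun p hp => ?_)
    rw [mem_Icc] at hp
    have hp0 : (0 : ℝ) < p := by
      have : 0 < p := by omega
      exact_mod_cast this
    field_simp
    push_cast
    ring
  have h4 : ((Icc 5 R).card : ℝ) ≤ R := by
    rw [Nat.card_Icc]
    exact_mod_cast (by omega : R + 1 - 5 ≤ R)
  have h5 := sum_sq5 R
  have h6 := sum_inv5 R
  have hI0 : (0 : ℝ) ≤ I := Nat.cast_nonneg _
  have hJ0 : (0 : ℝ) ≤ J := Nat.cast_nonneg _
  have h7 : (I : ℝ) * J * ∑ p ∈ Icc 5 R, (1 : ℝ) / (p : ℝ) ^ 2 ≤ (I : ℝ) * J * (1 / 4) := by gcongr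
  have h8 : ((I : ℝ) + J) * ∑ p ∈ Icc 5 R, (1 : ℝ) / (p : ℝ) ≤ ((I : ℝ) + J) * (1 + Real.log R) := by
    gcongr
  have h9 : ((I : ℝ) + J) * (1 + Real.log R) ≤ (I : ℝ) * J / 8 := by
    have e1 : (I : ℝ) * (1 + Real.log R) ≤ I * (J / 16) := by
      apply mul_le_mul_of_nonneg_left _ hI0
      linarith
    have e2 : (J : ℝ) * (1 + Real.log R) ≤ J * (I / 16) := by
      apply mul_le_mul_of_nonneg_left _ hJ0
      linarith
    calc ((I : ℝ) + J) * (1 + Real.log R) = I * (1 + Real.log R) + J * (1 + Real.log R) := by ring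
      _ ≤ I * (J / 16) + J * (I / 16) := add_le_add e1 e2
      _ = _ := by ring
  linarith

end Pool.Agent.R417.LD
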